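import Pool.Agent.H32.TW.Sum
import Pool.Agent.H53.RQ.Defs

/-!
# The dictionary: helper53's `W` is helper35's `W` (MP_1e629d_co, part C2)
-/

set_option autoImplicit false

namespace Pool.Agent.H32.TW

open Function Polynomial Finset

section general

variable {K : Type} [Field K]

/-- the outer nodes `y`, `z` are admissible for the window `[b, b + m)` -/
def Good (x : ℕ → K) (m b : ℕ) (y z : K) : Prop :=
  y ≠ 0 ∧ z ≠ 0 ∧ y ≠ z ∧ y + z ≠ 0 ∧
    ∀ j, b ≤ j → j < b + m → x j ≠ y ∧ x j ≠ z ∧ -x j ≠ y ∧ -x j ≠ z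

theorem T_eq_W (q : K) (x : ℕ → K) (hx : ∀ i j, i ≠ j → x i ≠ x j) (hx0 : ∀ i, x i ≠ 0)
    (hxn : ∀ i j, x i ≠ -x j) (m : ℕ) : ∀ (b : ℕ) (y z : K) (g : K[X]), Good x m b y z →
      T q x m b y z g = Pool.Agent.H35.Tw.W q x m b y z g := by
  induction m with
  | zero =>
    intro b y z g hg
    obtain ⟨h1, h2, h3, h4, _⟩ := hg
    rw [T_zero q x b y z g h1 h2 (sub_ne_zero.2 h3) h4, Pool.Agent.H35.Tw.W_zero]
  | succ m ih =>
    intro b y z g hg
    obtain ⟨h1, h2, h3, h4, h5⟩ := hg
    obtain ⟨a1, a2, a3, a4⟩ := h5 (b + m) (by omega) (by omega)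
    obtain ⟨b1, b2, b3, b4⟩ := h5 b (by omega) (by omega)
    rw [T_succ q x m b y z g h3 a1 a2 b3 b4, Pool.Agent.H35.Tw.W_succ q x m b y z g h3 a1 a2 b3 b4]
    have gA1 : Good x m b y z := ⟨h1, h2, h3, h4, fun j hj1 hj2 => h5 j hj1 (by omega)⟩
    have gA2 : Good x m b (x (b + m)) z :=
      ⟨hx0 _, h2, a2, fun h => a4 (by rw [neg_eq_iff_add_eq_zero]; exact h),
        fun j hj1 hj2 => ⟨hx _ _ (by omega), (h5 j hj1 (by omega)).2.1,
          fun h => hxn (b + m) j h.symm, (h5 j hj1 (by omega)).2.2.2⟩⟩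
    have gA3 : Good x m b (x (b + m)) y :=
      ⟨hx0 _, h1, a1, fun h => a3 (by rw [neg_eq_iff_add_eq_zero]; exact h),
        fun j hj1 hj2 => ⟨hx _ _ (by omega), (h5 j hj1 (by omega)).1,
          fun h => hxn (b + m) j h.symm, (h5 j hj1 (by omega)).2.2.1⟩⟩
    have gB1 : Good x m (b + 1) y z :=
      ⟨h1, h2, h3, h4, fun j hj1 hj2 => h5 j (by omega) (by omega)⟩
    have gB2 : Good x m (b + 1) (-x b) z :=
      ⟨neg_ne_zero.2 (hx0 _), h2, b4, fun h => b2 (by
          have := neg_add_eq_zero.1 h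
          exact this),
        fun j hj1 hj2 => ⟨fun h => hxn j b h, (h5 j (by omega) (by omega)).2.1,
          fun h => hx j b (by omega) (neg_injective h), (h5 j (by omega) (by omega)).2.2.2⟩⟩
    have gB3 : Good x m (b + 1) (-x b) y :=
      ⟨neg_ne_zero.2 (hx0 _), h1, b3, fun h => b1 (by
          have := neg_add_eq_zero.1 h
          exact this),
        fun j hj1 hj2 => ⟨fun h => hxn j b h, (h5 j (by omega) (by omega)).1,
          fun h => hx j b (by omega) (neg_injective h), (h5 j (by omega) (by omega)).2.2.1⟩⟩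
    unfold Pool.Agent.H35.Tw.tri
    simp only []
    rw [ih b y z g gA1, ih b (x (b + m)) z g gA2, ih b (x (b + m)) y g gA3,
      ih (b + 1) y z _ gB1, ih (b + 1) (-x b) z _ gB2, ih (b + 1) (-x b) y _ gB3]

end general

section real

open Pool.H53.RQ

/-- signed nodes -/
noncomputable def sg (y : ℕ → ℝ) (pos : ℕ → Bool) (s : ℕ) : ℝ := if pos s = true then y s else -y s

/-- sum of the absolute values of the negative nodes of the sites `< N` -/
noncomputable def cst (N : ℕ) (y : ℕ → ℝ) (pos : ℕ → Bool) : ℝ :=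
  ∑ s ∈ range N, if pos s = true then 0 else y s

lemma fs_inj {A B : Finset ℕ} : fs A = fs B ↔ A = B := by
  constructor
  · intro h
    ext i
    have := congrFun h i
    simp only [fs] at this
    exact decide_eq_decide.1 this
  · rintro rfl; rfl

lemma fs_erase (A : Finset ℕ) (k : ℕ) : update (fs A) k false = fs (A.erase k) := by
  funext i
  by_cases h : i = k
  · subst h; simp [fs]
  · simp [fs, h]

lemma Dop53_apply (N : ℕ) (y : ℕ → ℝ) (pos : ℕ → Bool) (f : Finset ℕ → ℝ) (A : Finset ℕ) :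
    Pool.H53.RQ.Dop N y pos f A = (if 0 ∈ A then f (A.erase 0) else 0)
      + ∑ j ∈ range N, ((if j + 1 ∈ A ∧ j ∉ A then f (insert j (A.erase (j + 1))) else 0)
        + (if (j ∈ A ↔ pos j = true) then y j * f A else 0)) := by
  unfold Pool.H53.RQ.Dop
  rw [LinearMap.sum_apply, Finset.sum_apply, Finset.sum_range_succ']
  rw [add_comm]
  rfl

lemma Dop_mine_apply (N : ℕ) (hN : 0 < N) (t : ℕ → ℝ) (ψ : (ℕ → Bool) → ℝ) (A : Finset ℕ)
    (hA : A ⊆ range N) :
    TW.Dop N t ψ (fs A) = (if 0 ∈ A then ψ (fs (A.erase 0)) else 0)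
      + ∑ j ∈ range N, ((if j + 1 ∈ A ∧ j ∉ A then ψ (fs (insert j (A.erase (j + 1)))) else 0)
        + (if j ∈ A then t j * ψ (fs A) else 0)) := by
  obtain ⟨n, rfl⟩ : ∃ n, N = n + 1 := ⟨N - 1, by omega⟩
  have e1 : TW.Dop (n + 1) t ψ (fs A)
      = ∑ i ∈ range (n + 1), (t i * nu i ψ (fs A) + hh i ψ (fs A)) := by
    simp [TW.Dop, LinearMap.sum_apply]
  rw [e1, sum_add_distrib, sum_add_distrib]
  have e2 : ∑ i ∈ range (n + 1), hh i ψ (fs A)
      = (if 0 ∈ A then ψ (fs (A.erase 0)) else 0)
        + ∑ j ∈ range (n + 1), (if j + 1 ∈ A ∧ j ∉ A then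
            ψ (fs (insert j (A.erase (j + 1)))) else 0) := by
    rw [sum_range_succ', sum_range_succ (fun j => if j + 1 ∈ A ∧ j ∉ A then
            ψ (fs (insert j (A.erase (j + 1)))) else 0)]
    have hn : ¬ (n + 1 ∈ A ∧ n ∉ A) := fun h => by
      have := mem_range.1 (hA h.1)
      omega
    rw [if_neg hn, add_zero, add_comm]
    congr 1
    · rw [hh_zero_apply, fs_erase]
      simp only [fs, decide_eq_true_eq]
    · refine sum_congr rfl fun j _ => ?_
      rw [hh_succ_apply, fs_erase, ← fs_insert]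
      simp only [fs, decide_eq_true_eq, decide_eq_false_iff_not]
  have e3 : ∀ i ∈ range (n + 1), t i * nu i ψ (fs A) = if i ∈ A then t i * ψ (fs A) else 0 := by
    intro i _
    rw [nu_apply]
    simp only [fs, decide_eq_true_eq]
    split_ifs <;> simp
  rw [e2, sum_congr rfl e3]
  ring

lemma Dop_rel (N : ℕ) (hN : 0 < N) (y : ℕ → ℝ) (pos : ℕ → Bool) (f : Finset ℕ → ℝ)
    (ψ : (ℕ → Bool) → ℝ) (h : ∀ A, A ⊆ range N → f A = ψ (fs A)) (A : Finset ℕ)
    (hA : A ⊆ range N) :
    Pool.H53.RQ.Dop N y pos f A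
      = (TW.Dop N (sg y pos) + cst N y pos • 1 : Module.End ℝ ((ℕ → Bool) → ℝ)) ψ (fs A) := by
  rw [LinearMap.add_apply, LinearMap.smul_apply, Module.End.one_apply, Pi.add_apply,
    Pi.smul_apply, smul_eq_mul, Dop53_apply, Dop_mine_apply N hN _ _ _ hA, cst]
  rw [sum_add_distrib, sum_add_distrib, Finset.sum_mul]
  have h1 : (if 0 ∈ A then f (A.erase 0) else 0) = if 0 ∈ A then ψ (fs (A.erase 0)) else 0 := by
    split_ifs
    · exact h _ (fun i hi => hA (mem_of_mem_erase hi))
    · rfl
  have h2 : ∀ j ∈ range N, (if j + 1 ∈ A ∧ j ∉ A then f (insert j (A.erase (j + 1))) else 0)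
      = if j + 1 ∈ A ∧ j ∉ A then ψ (fs (insert j (A.erase (j + 1)))) else 0 := by
    intro j hj
    split_ifs
    · apply h
      intro i hi
      rcases mem_insert.1 hi with hi | hi
      · rw [hi]; exact hj
      · exact hA (mem_of_mem_erase hi)
    · rfl
  have h3 : ∑ j ∈ range N, (if (j ∈ A ↔ pos j = true) then y j * f A else 0)
      = ∑ j ∈ range N, (if j ∈ A then sg y pos j * ψ (fs A) else 0)
        + ∑ s ∈ range N, (if pos s = true then 0 else y s) * ψ (fs A) := by
    rw [← sum_add_distrib]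
    refine sum_congr rfl fun j _ => ?_
    rw [h A hA]
    unfold sg
    by_cases hj : j ∈ A <;> by_cases hp : pos j = true <;> simp [hj, hp]
  rw [h1, sum_congr rfl h2, h3]
  ring

lemma pow_rel (N : ℕ) (hN : 0 < N) (y : ℕ → ℝ) (pos : ℕ → Bool) (f : Finset ℕ → ℝ)
    (ψ : (ℕ → Bool) → ℝ) (h : ∀ A, A ⊆ range N → f A = ψ (fs A)) (n : ℕ) :
    ∀ A, A ⊆ range N → ((Pool.H53.RQ.Dop N y pos) ^ n) f A
      = ((TW.Dop N (sg y pos) + cst N y pos • 1 : Module.End ℝ ((ℕ → Bool) → ℝ)) ^ n) ψ (fs A) := by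
  induction n with
  | zero => intro A hA; simpa using h A hA
  | succ n ih =>
    intro A hA
    rw [pow_succ', pow_succ', Module.End.mul_apply, Module.End.mul_apply]
    exact Dop_rel N hN y pos _ _ ih A hA

/-- matrix elements in the two models -/
theorem me_eq_amp (N : ℕ) (hN : 0 < N) (y : ℕ → ℝ) (pos : ℕ → Bool) (g : ℝ[X])
    (V U : Finset ℕ) (hV : V ⊆ range N) :
    me (aeval (Pool.H53.RQ.Dop N y pos) g) V U
      = amp N (sg y pos) (g.comp (X + C (cst N y pos))) (fs V) (fs U) := by
  unfold me amp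
  rw [← aeval_shift]
  have hd : ∀ A : Finset ℕ, A ⊆ range N → (Pi.single U (1 : ℝ) : Finset ℕ → ℝ) A
      = (del (fs U) : (ℕ → Bool) → ℝ) (fs A) := by
    intro A _
    unfold del
    rw [Pi.single_apply]
    by_cases hAU : A = U
    · rw [if_pos hAU, if_pos (by rw [hAU])]
    · rw [if_neg hAU, if_neg (fun e => hAU (fs_inj.1 e))]
  induction g using Polynomial.induction_on' with
  | add p q hp hq =>
    simp only [map_add, LinearMap.add_apply, Pi.add_apply, hp, hq]
  | monomial n a =>
    rw [aeval_monomial, aeval_monomial]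
    simp only [Module.End.mul_apply, Module.algebraMap_end_apply, Pi.smul_apply]
    rw [pow_rel N hN y pos _ _ hd n V hV]

lemma card_split (m : ℕ) (S : Finset ℕ) (s : ℕ) (hs : s < m) :
    m - 1 - ((range m).filter fun i => s < i ∧ i ∉ S).card = 0 + s + cS m S s := by
  unfold cS
  have h1 : ((range m).filter fun i => s < i ∧ i ∈ S).card
      + ((range m).filter fun i => s < i ∧ i ∉ S).card = m - 1 - s := by
    rw [← card_union_of_disjoint]
    · have : ((range m).filter fun i => s < i ∧ i ∈ S) ∪ ((range m).filter fun i => s < i ∧ i ∉ S)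
          = Ioo s m := by
        ext i
        simp only [mem_union, mem_filter, mem_range, mem_Ioo]
        tauto
      rw [this, Nat.card_Ioo]
      omega
    · rw [disjoint_left]
      intro i hi hi'
      simp only [mem_filter] at hi hi'
      exact hi'.2.2 hi.2.2
  omega

/-- **Dictionary**: helper53's window functional is helper35's `W`. -/
theorem W_eq (q : ℝ) (hq0 : 0 < q) (hq1 : q < 1) (m : ℕ) (g : ℝ[X]) :
    Pool.H53.RQ.W q m g
      = Pool.Agent.H35.Tw.W q (fun i => q ^ i) m 0 (q ^ m) (q ^ (m + 1)) g := by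
  have hpos : ∀ i : ℕ, 0 < q ^ i := fun i => pow_pos hq0 i
  have hinj : ∀ i j : ℕ, i ≠ j → q ^ i ≠ q ^ j := by
    intro i j hij h
    exact hij (pow_right_injective₀ hq0 (ne_of_lt hq1) h)
  have hneg : ∀ i j : ℕ, q ^ i ≠ -q ^ j := by
    intro i j h
    have := hpos i
    have := hpos j
    linarith
  rw [← T_eq_W q (fun i => q ^ i) hinj (fun i => (hpos i).ne') hneg m 0 (q ^ m) (q ^ (m + 1)) g
    ⟨(hpos _).ne', (hpos _).ne', hinj _ _ (by omega), (add_pos (hpos _) (hpos _)).ne',
      fun j _ hj => ⟨hinj _ _ (by omega), hinj _ _ (by omega),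
        fun h => hneg m j h.symm, fun h => hneg (m + 1) j h.symm⟩⟩]
  unfold Pool.H53.RQ.W T
  refine sum_congr rfl fun S hS => ?_
  rw [mem_powerset] at hS
  congr 1
  have hV : S ∪ {m, m + 1} ⊆ range (m + 2) := by
    intro i hi
    simp only [mem_union, mem_insert, mem_singleton] at hi
    rw [mem_range]
    rcases hi with hi | hi | hi
    · have := mem_range.1 (hS hi)
      omega
    · omega
    · omega
  rw [me_eq_amp (m + 2) (by omega) _ _ _ _ _ hV]
  have hm : m ∉ S := fun h => by
    have := mem_range.1 (hS h)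
    omega
  have hm1 : m + 1 ∉ S := fun h => by
    have := mem_range.1 (hS h)
    omega
  have hc : cst (m + 2) (nod q m S) (sgn m S) = ng (fun i => q ^ i) m 0 S := by
    unfold cst ng
    rw [← sum_subset (fun i hi => by
      have := mem_range.1 (hS hi)
      exact mem_range.2 (by omega) : S ⊆ range (m + 2))]
    · refine sum_congr rfl fun s hs => ?_
      have hsm := mem_range.1 (hS hs)
      have h1 : sgn m S s ≠ true := by
        unfold sgn
        simp only [ne_eq, decide_eq_true_eq, not_or, not_le, not_not]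
        exact ⟨hsm, hs⟩
      rw [if_neg h1]
      unfold nod cS
      rw [if_neg (by omega), if_pos hs, zero_add]
    · intro s _ hs
      rw [if_pos]
      unfold sgn
      simp only [decide_eq_true_eq]
      exact Or.inr hs
  rw [hc]
  apply amp_congr _ _ le_rfl
  · intro i hi
    unfold sg nd
    by_cases h1 : i = m
    · subst h1
      rw [if_pos (by simp [sgn]), if_pos rfl]
      simp [nod]
    · by_cases h2 : i = m + 1
      · subst h2
        rw [if_pos (by simp [sgn]), if_neg (by omega), if_pos rfl]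
        simp [nod]
      · have him : i < m := by omega
        rw [if_neg h1, if_neg h2]
        by_cases h3 : i ∈ S
        · have h4 : sgn m S i ≠ true := by
            unfold sgn
            simp only [ne_eq, decide_eq_true_eq, not_or, not_le, not_not]
            exact ⟨him, h3⟩
          rw [if_neg h4, if_pos h3]
          unfold nod cS
          rw [if_neg (by omega), if_pos h3, zero_add]
        · have h4 : sgn m S i = true := by
            unfold sgn
            simp only [decide_eq_true_eq]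
            exact Or.inr h3
          rw [if_pos h4, if_neg h3]
          unfold nod
          rw [if_neg (by omega), if_neg h3, card_split m S i him]
  · intro i hi
    exact fs_false hV i hi

end real

end Pool.Agent.H32.TW
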