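import Pool.Agent.H32.TW.Uniq
import Pool.Agent.H71.RW.Defs

/-!
# MP_1e629d_co, part (D): diagonals and signs of the chain sums, and `partD` from two hypotheses

For letters `f a` in the opposite ring of the operators: the chain sums `MM R f l` are triangular,
their diagonal entries are the chain sums of the diagonal entries of the letters, they have
nonnegative entries if the letters have. Hence (`partD_of`) the nonnegativity of the entries of
`aeval (Dop K y pos) g` follows from the commutation of `MM R f l` with `Dop` and the evaluation of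
the scalar chain sums.
-/

set_option autoImplicit false

open Finset Polynomial MulOpposite
open Pool.H53.RQ
open Pool.Agent.H71.RW

namespace Pool.Agent.H32.TW

variable {α : Type*}

lemma nice_map_prod {K : ℕ} {f : α → Opᵐᵒᵖ} (hf : ∀ a, Nice K (unop (f a))) (w : List α) :
    Nice K (unop (w.map f).prod) := by
  induction w with
  | nil => simpa using nice_one K
  | cons a w ih =>
    rw [List.map_cons, List.prod_cons, unop_mul]
    exact nice_mul ih (hf a)

lemma nice_FT {K : ℕ} {f : α → Opᵐᵒᵖ} (hf : ∀ a, Nice K (unop (f a))) (T : List (List α)) :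
    Nice K (unop (FT f T)) := by
  induction T with
  | nil => simpa [FT] using nice_one K
  | cons w T ih =>
    rw [FT, unop_mul]
    exact nice_mul (nice_map_prod hf w) ih

lemma nice_MM [Fintype α] {K : ℕ} {f : α → Opᵐᵒᵖ} (hf : ∀ a, Nice K (unop (f a)))
    (R : α → α → Prop) (l : List ℕ) : Nice K (unop (MM R f l)) := by
  rw [MM, unop_sum]
  exact nice_sum _ _ fun T _ => nice_FT hf T

lemma me_map_prod_self {K : ℕ} {f : α → Opᵐᵒᵖ} (hf : ∀ a, Nice K (unop (f a))) (w : List α)
    (u : Finset ℕ) (hu : u ⊆ range K) :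
    me (unop (w.map f).prod) u u = (w.map fun a => me (unop (f a)) u u).prod := by
  induction w with
  | nil => simp [me_one]
  | cons a w ih =>
    rw [List.map_cons, List.prod_cons, unop_mul, me_mul_self (nice_map_prod hf w) (hf a) u hu, ih,
      List.map_cons, List.prod_cons, mul_comm]

lemma me_FT_self {K : ℕ} {f : α → Opᵐᵒᵖ} (hf : ∀ a, Nice K (unop (f a))) (T : List (List α))
    (u : Finset ℕ) (hu : u ⊆ range K) :
    me (unop (FT f T)) u u = FT (fun a => me (unop (f a)) u u) T := by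
  induction T with
  | nil => simp [FT, me_one]
  | cons w T ih =>
    rw [FT, unop_mul, me_mul_self (nice_map_prod hf w) (nice_FT hf T) u hu, ih,
      me_map_prod_self hf w u hu, FT, mul_comm]

lemma me_MM_self [Fintype α] {K : ℕ} {f : α → Opᵐᵒᵖ} (hf : ∀ a, Nice K (unop (f a)))
    (R : α → α → Prop) (l : List ℕ) (u : Finset ℕ) (hu : u ⊆ range K) :
    me (unop (MM R f l)) u u = MM R (fun a => me (unop (f a)) u u) l := by
  rw [MM, unop_sum, me_sum, MM]
  exact sum_congr rfl fun T _ => me_FT_self hf T u hu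

/-- nonnegative entries on the states inside `range K` -/
def Nn (K : ℕ) (M : Op) : Prop := ∀ v u, v ⊆ range K → u ⊆ range K → 0 ≤ me M v u

lemma nn_one (K : ℕ) : Nn K 1 := by
  intro v u _ _
  rw [me_one]
  split_ifs
  · exact zero_le_one
  · exact le_rfl

lemma nn_mul {K : ℕ} {M N : Op} (hM : Nice K M) (h1 : Nn K M) (h2 : Nn K N) : Nn K (M * N) := by
  intro v u hv hu
  rw [me_mul hM v u hv]
  exact sum_nonneg fun w hw => mul_nonneg (h1 v w hv (mem_powerset.1 hw))
    (h2 w u (mem_powerset.1 hw) hu)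

lemma nn_sum {K : ℕ} {ι : Type*} (s : Finset ι) (M : ι → Op) (h : ∀ i ∈ s, Nn K (M i)) :
    Nn K (∑ i ∈ s, M i) := by
  intro v u hv hu
  rw [me_sum]
  exact sum_nonneg fun i hi => h i hi v u hv hu

lemma nn_map_prod {K : ℕ} {f : α → Opᵐᵒᵖ} (hf : ∀ a, Nice K (unop (f a)))
    (h : ∀ a, Nn K (unop (f a))) (w : List α) : Nn K (unop (w.map f).prod) := by
  induction w with
  | nil => simpa using nn_one K
  | cons a w ih =>
    rw [List.map_cons, List.prod_cons, unop_mul]
    exact nn_mul (nice_map_prod hf w) ih (h a)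

lemma nn_FT {K : ℕ} {f : α → Opᵐᵒᵖ} (hf : ∀ a, Nice K (unop (f a)))
    (h : ∀ a, Nn K (unop (f a))) (T : List (List α)) : Nn K (unop (FT f T)) := by
  induction T with
  | nil => simpa [FT] using nn_one K
  | cons w T ih =>
    rw [FT, unop_mul]
    exact nn_mul (nice_map_prod hf w) (nn_map_prod hf h w) ih

lemma nn_MM [Fintype α] {K : ℕ} {f : α → Opᵐᵒᵖ} (hf : ∀ a, Nice K (unop (f a)))
    (h : ∀ a, Nn K (unop (f a))) (R : α → α → Prop) (l : List ℕ) :
    Nn K (unop (MM R f l)) := by
  rw [MM, unop_sum]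
  exact nn_sum _ _ fun T _ => nn_FT hf h T

lemma nn_let0 (K : ℕ) : Nn K let0 := by
  intro v u _ _
  rw [me_let0]
  split_ifs
  · exact zero_le_one
  · exact le_rfl

lemma nn_letS {K : ℕ} {y : ℕ → ℝ} {pos : ℕ → Bool} {j : ℕ} (hy : 0 ≤ y j) :
    Nn K (letS y pos j) := by
  intro v u _ _
  rw [me_letS]
  refine add_nonneg ?_ ?_
  · split_ifs
    · exact zero_le_one
    · exact le_rfl
  · split_ifs
    · exact hy
    · exact le_rfl

/-- the letters, in the opposite ring -/
noncomputable def lf (K : ℕ) (y : ℕ → ℝ) (pos : ℕ → Bool) (a : Fin (K + 1)) : Opᵐᵒᵖ :=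
  op (lett y pos a)

lemma nice_lf (K : ℕ) (y : ℕ → ℝ) (pos : ℕ → Bool) (a : Fin (K + 1)) :
    Nice K (unop (lf K y pos a)) := nice_lett K y pos a

lemma nn_lf {K : ℕ} {y : ℕ → ℝ} {pos : ℕ → Bool} (hy : ∀ i, i < K → 0 ≤ y i)
    (a : Fin (K + 1)) : Nn K (unop (lf K y pos a)) := by
  change Nn K (lett y pos (a : ℕ))
  have ha := a.2
  generalize (a : ℕ) = b at ha ⊢
  rcases b with _ | j
  · exact nn_let0 K
  · exact nn_letS (hy j (by omega))

/-- the diagonal entries of the letters -/
noncomputable def lv (K : ℕ) (y : ℕ → ℝ) (pos : ℕ → Bool) (u : Finset ℕ) (a : Fin (K + 1)) : ℝ :=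
  if (a : ℕ) = 0 then 0 else if ((a : ℕ) - 1 ∈ u ↔ pos ((a : ℕ) - 1) = true) then y ((a : ℕ) - 1)
    else 0

lemma me_lf_self (K : ℕ) (y : ℕ → ℝ) (pos : ℕ → Bool) (u : Finset ℕ) (a : Fin (K + 1)) :
    me (unop (lf K y pos a)) u u = lv K y pos u a := by
  change me (lett y pos (a : ℕ)) u u = _
  unfold lv
  generalize (a : ℕ) = b
  rcases b with _ | j
  · rw [me_lett_zero_self, if_pos rfl]
  · rw [me_lett_self, if_neg (Nat.succ_ne_zero j), Nat.add_sub_cancel]

lemma sum_lf (K : ℕ) (y : ℕ → ℝ) (pos : ℕ → Bool) :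
    ∑ a : Fin (K + 1), lf K y pos a = op (Dop K y pos) := by
  unfold lf Dop
  rw [← op_sum, Finset.sum_range]

/-- `partD` from the commutation of the chain sum with `Dop` and the evaluation of the scalar
chain sums. -/
theorem partD_of (K : ℕ) (y : ℕ → ℝ) (pos : ℕ → Bool) (hy : ∀ i, i < K → 0 < y i)
    (hinj : ∀ I ⊆ range K, ∀ J ⊆ range K, ∑ i ∈ I, y i = ∑ i ∈ J, y i → I = J)
    (l : List ℕ) (g : Polynomial ℝ)
    (hg : ∀ J ⊆ range K, g.eval (∑ i ∈ J, y i) = P y l J)
    (R : Fin (K + 1) → Fin (K + 1) → Prop)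
    (hcomm : MM R (lf K y pos) l * op (Dop K y pos) = op (Dop K y pos) * MM R (lf K y pos) l)
    (hdiag : ∀ u ⊆ range K, MM R (lv K y pos u) l = P y l (Jset K pos u))
    (u v : Finset ℕ) (hu : u ⊆ range K) (hv : v ⊆ range K) :
    0 ≤ me (Polynomial.aeval (Dop K y pos) g) v u := by
  have hN := nice_MM (nice_lf K y pos) R l
  have hc : unop (MM R (lf K y pos) l) * Dop K y pos = Dop K y pos * unop (MM R (lf K y pos) l) := by
    have h := congrArg unop hcomm
    rw [unop_mul, unop_mul, unop_op] at h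
    exact h.symm
  rw [← uniq K y pos hinj _ hN (fun u v _ _ => by rw [hc]) g ?_ u v hu hv]
  · exact nn_MM (nice_lf K y pos) (nn_lf fun i hi => (hy i hi).le) R l v u hv hu
  · intro u hu
    rw [me_MM_self (nice_lf K y pos) R l u hu, hg (Jset K pos u) (filter_subset _ _), ← hdiag u hu]
    congr 1
    funext a
    exact me_lf_self K y pos u a

end Pool.Agent.H32.TW
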