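import Pool.Agent.H32.TW.Exch

/-!
# Amplitudes `amp N t g v u = ⟨v| g(Dop N t) |u⟩` (MP_1e629d_co, part C2)
-/

namespace Pool.Agent.H32.TW

open Function Polynomial

variable {K : Type*} [Field K]

open Classical in
/-- the basis vector of the state `u` -/
noncomputable def del (u : ℕ → Bool) : (ℕ → Bool) → K := fun s => if s = u then 1 else 0

/-- matrix element of `g(Dop N t)` from `u` to `v` -/
noncomputable def amp (N : ℕ) (t : ℕ → K) (g : K[X]) (v u : ℕ → Bool) : K :=
  (aeval (Dop N t) g) (del u) v

lemma aeval_semi {E : Type*} [Ring E] [Algebra K E] {x y r : E} (h : x * r = r * y) (g : K[X]) :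
    aeval x g * r = r * aeval y g := by
  induction g using Polynomial.induction_on' with
  | add p q hp hq => simp only [map_add, add_mul, mul_add, hp, hq]
  | monomial n a =>
    have hn : x ^ n * r = r * y ^ n := by
      have := (show SemiconjBy r y x from h.symm).pow_right n
      exact this.symm
    rw [← C_mul_X_pow_eq_monomial, map_mul, map_mul, map_pow, map_pow, aeval_C, aeval_C,
      aeval_X, aeval_X, mul_assoc, hn, ← mul_assoc, ← mul_assoc, Algebra.commutes]

lemma aeval_shift {E : Type*} [Ring E] [Algebra K E] (x : E) (c : K) (g : K[X]) :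
    aeval (x + c • 1) g = aeval x (g.comp (X + C c)) := by
  rw [aeval_comp]
  congr 1
  simp [Algebra.smul_def]

lemma BB_del (j : ℕ) (u : ℕ → Bool) (h1 : u (j + 1) = true) (h2 : u j = false) :
    BB j (del u : (ℕ → Bool) → K) = del (update (update u (j + 1) false) j true) := by
  funext s
  rw [BB_apply]
  unfold del
  by_cases hs : s = update (update u (j + 1) false) j true
  · have hj : s j = true := by rw [hs]; simp
    have hj1 : s (j + 1) = false := by rw [hs, update_of_ne (by omega)]; simp
    have e : update (update s j false) (j + 1) true = u := by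
      rw [hs]; exact upd_back j u h1 h2
    rw [if_pos ⟨hj, hj1⟩, if_pos e, if_pos hs]
  · rw [if_neg hs]
    by_cases hc : s j = true ∧ s (j + 1) = false
    · rw [if_pos hc, if_neg]
      intro e
      apply hs
      rw [← e]
      exact (upd_back' j s hc.1 hc.2).symm
    · rw [if_neg hc]

lemma BB_del_zero (j : ℕ) (u : ℕ → Bool) (h : ¬ (u (j + 1) = true ∧ u j = false)) :
    BB j (del u : (ℕ → Bool) → K) = 0 := by
  funext s
  rw [BB_apply]
  unfold del
  by_cases hc : s j = true ∧ s (j + 1) = false
  · rw [if_pos hc, if_neg]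
    · rfl
    · intro e
      apply h
      rw [← e]
      refine ⟨by simp, ?_⟩
      rw [update_of_ne (by omega)]; simp
  · rw [if_neg hc]; rfl

lemma amp_exch (N j : ℕ) (hj : j + 1 < N) (t : ℕ → K) (g : K[X]) (v u : ℕ → Bool) :
    amp N t g v u + (t j - t (j + 1)) * (aeval (Dop N t) g) (BB j (del u)) v
      = amp N (t ∘ Equiv.swap j (j + 1)) g v u
        + (t j - t (j + 1)) * BB j (aeval (Dop N (t ∘ Equiv.swap j (j + 1))) g (del u)) v := by
  have h := aeval_semi (exch N j hj t) g
  have h2 := congrArg (fun F : Module.End K ((ℕ → Bool) → K) => F (del u) v) h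
  simp only [Module.End.mul_apply, LinearMap.add_apply, Module.End.one_apply,
    LinearMap.smul_apply, map_add, map_smul, Pi.add_apply, Pi.smul_apply, smul_eq_mul] at h2
  exact h2

/-- final state `v` with `j` full, `j+1` empty; initial state not `(empty, full)` -/
lemma amp_up (N j : ℕ) (hj : j + 1 < N) (t : ℕ → K) (g : K[X]) (v u : ℕ → Bool)
    (hv1 : v j = true) (hv2 : v (j + 1) = false) (hu : ¬ (u (j + 1) = true ∧ u j = false)) :
    amp N t g v u = amp N (t ∘ Equiv.swap j (j + 1)) g v u
      + (t j - t (j + 1)) *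
        amp N (t ∘ Equiv.swap j (j + 1)) g (update (update v j false) (j + 1) true) u := by
  have h := amp_exch N j hj t g v u
  rw [BB_del_zero j u hu, map_zero, Pi.zero_apply, mul_zero, add_zero, BB_apply,
    if_pos ⟨hv1, hv2⟩] at h
  exact h

/-- final state not `(full, empty)`, initial state not `(empty, full)` -/
lemma amp_sym (N j : ℕ) (hj : j + 1 < N) (t : ℕ → K) (g : K[X]) (v u : ℕ → Bool)
    (hv : ¬ (v j = true ∧ v (j + 1) = false)) (hu : ¬ (u (j + 1) = true ∧ u j = false)) :
    amp N t g v u = amp N (t ∘ Equiv.swap j (j + 1)) g v u := by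
  have h := amp_exch N j hj t g v u
  rw [BB_del_zero j u hu, map_zero, Pi.zero_apply, mul_zero, add_zero, BB_apply,
    if_neg hv, mul_zero, add_zero] at h
  exact h

/-- initial state with `j` empty, `j+1` full, final state not `(full, empty)` -/
lemma amp_down (N j : ℕ) (hj : j + 1 < N) (t : ℕ → K) (g : K[X]) (v u : ℕ → Bool)
    (hv : ¬ (v j = true ∧ v (j + 1) = false)) (hu1 : u (j + 1) = true) (hu2 : u j = false) :
    amp N t g v u + (t j - t (j + 1)) * amp N t g v (update (update u (j + 1) false) j true)
      = amp N (t ∘ Equiv.swap j (j + 1)) g v u := by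
  have h := amp_exch N j hj t g v u
  rw [BB_del j u hu1 hu2, BB_apply, if_neg hv, mul_zero, add_zero] at h
  exact h

lemma Dop_congr (k N : ℕ) (hk : k ≤ N) (t t' : ℕ → K) (ht : ∀ i < k, t i = t' i)
    (ψ φ : (ℕ → Bool) → K) (h : ∀ s : ℕ → Bool, (∀ i, k ≤ i → s i = false) → ψ s = φ s)
    (s : ℕ → Bool) (hs : ∀ i, k ≤ i → s i = false) :
    Dop N t ψ s = Dop k t' φ s := by
  have e1 : Dop N t ψ s = ∑ i ∈ Finset.range N, (t i * nu i ψ s + hh i ψ s) := by
    simp [Dop, LinearMap.sum_apply]
  have e2 : Dop k t' φ s = ∑ i ∈ Finset.range k, (t' i * nu i φ s + hh i φ s) := by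
    simp [Dop, LinearMap.sum_apply]
  rw [e1, e2]
  symm
  have hsub : Finset.range k ⊆ Finset.range N := Finset.range_subset_range.2 hk
  rw [← Finset.sum_subset hsub]
  · apply Finset.sum_congr rfl
    intro i hi
    rw [Finset.mem_range] at hi
    rw [ht i hi, nu_apply, nu_apply, h s hs]
    congr 1
    rcases i with _ | i
    · rw [hh_zero_apply, hh_zero_apply, h]
      intro i' hi'
      rw [update_apply]
      split_ifs
      · rfl
      · exact hs i' hi'
    · rw [hh_succ_apply, hh_succ_apply, h]
      intro i' hi'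
      rw [update_of_ne (by omega), update_of_ne (by omega)]
      exact hs i' hi'
  · intro i _ hi
    rw [Finset.mem_range, not_lt] at hi
    rw [nu_apply, hs i hi]
    rcases i with _ | i
    · rw [hh_zero_apply, hs 0 hi]; simp
    · rw [hh_succ_apply, hs (i + 1) hi]; simp

lemma pow_congr (k N : ℕ) (hk : k ≤ N) (t t' : ℕ → K) (ht : ∀ i < k, t i = t' i)
    (ψ : (ℕ → Bool) → K) (n : ℕ) :
    ∀ s : ℕ → Bool, (∀ i, k ≤ i → s i = false) →
      ((Dop N t) ^ n) ψ s = ((Dop k t') ^ n) ψ s := by
  induction n with
  | zero => intro s _; simp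
  | succ n ih =>
    intro s hs
    rw [pow_succ', pow_succ', Module.End.mul_apply, Module.End.mul_apply]
    exact Dop_congr k N hk t t' ht _ _ ih s hs

lemma amp_congr (k N : ℕ) (hk : k ≤ N) (t t' : ℕ → K) (ht : ∀ i < k, t i = t' i)
    (g : K[X]) (v u : ℕ → Bool) (hv : ∀ i, k ≤ i → v i = false) :
    amp N t g v u = amp k t' g v u := by
  unfold amp
  induction g using Polynomial.induction_on' with
  | add p q hp hq =>
    simp only [map_add, LinearMap.add_apply, Pi.add_apply, hp, hq]
  | monomial n a =>
    rw [aeval_monomial, aeval_monomial]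
    simp only [Module.End.mul_apply, Module.algebraMap_end_apply, Pi.smul_apply]
    rw [pow_congr k N hk t t' ht _ n v hv]

end Pool.Agent.H32.TW
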