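import Pool.Agent.H32.TW.Inert

/-!
# The two site amplitude (MP_1e629d_co, part C2)
-/

namespace Pool.Agent.H32.TW

open Function Polynomial

variable {K : Type*} [Field K]

/-- the third divided difference of `g` at `0, a, b, a+b` -/
noncomputable def dd4 (a b : K) (g : K[X]) : K :=
  (((g.eval (a + b) - g.eval 0) / (a + b)) - (g.eval a - g.eval b) / (a - b)) / (a * b)

/-- four states on the sites `0, 1` -/
def st (x y : Bool) : ℕ → Bool := update (update (fun _ => false) 0 x) 1 y

lemma st_zero (x y : Bool) : st x y 0 = x := by simp [st]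

lemma st_one (x y : Bool) : st x y 1 = y := by simp [st]

lemma Dop_two_apply (t : ℕ → K) (ψ : (ℕ → Bool) → K) (s : ℕ → Bool) :
    Dop 2 t ψ s = (t 0 * nu 0 ψ s + hh 0 ψ s) + (t 1 * nu 1 ψ s + hh 1 ψ s) := by
  simp [Dop, Finset.sum_range_succ]

lemma hh_one_apply (ψ : (ℕ → Bool) → K) (s : ℕ → Bool) :
    hh 1 ψ s = if s 1 = true ∧ s 0 = false then
      ψ (update (update s 1 false) 0 true) else 0 := rfl

lemma pow_two (t : ℕ → K) (h0 : t 0 ≠ 0) (h1 : t 1 ≠ 0) (h01 : t 0 ≠ t 1)
    (hs : t 0 + t 1 ≠ 0) (n : ℕ) :
    ((Dop 2 t) ^ n) (del (st false false)) (st false false) = (0 : K) ^ n ∧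
    ((Dop 2 t) ^ n) (del (st false false)) (st true false) = ((t 0) ^ n - 0 ^ n) / t 0 ∧
    ((Dop 2 t) ^ n) (del (st false false)) (st false true)
      = (0 : K) ^ n / (t 0 * t 1) + (t 0) ^ n / (t 0 * (t 0 - t 1))
        + (t 1) ^ n / (t 1 * (t 1 - t 0)) ∧
    ((Dop 2 t) ^ n) (del (st false false)) (st true true)
      = ((((t 0 + t 1) ^ n - 0 ^ n) / (t 0 + t 1)) - ((t 0) ^ n - (t 1) ^ n) / (t 0 - t 1))
        / (t 0 * t 1) := by
  have hd : t 0 - t 1 ≠ 0 := sub_ne_zero.2 h01
  have hd' : t 1 - t 0 ≠ 0 := sub_ne_zero.2 (Ne.symm h01)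
  have u1 : update (st true false) 0 false = st false false := by
    funext x; rcases x with _ | _ | x <;> simp [st]
  have u2 : update (update (st false true) 1 false) 0 true = st true false := by
    funext x; rcases x with _ | _ | x <;> simp [st]
  have u3 : update (st true true) 0 false = st false true := by
    funext x; rcases x with _ | _ | x <;> simp [st]
  induction n with
  | zero =>
    have n1 : st true false ≠ st false false := fun h => by
      have := congrFun h 0; simp [st] at this
    have n2 : st false true ≠ st false false := fun h => by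
      have := congrFun h 1; simp [st] at this
    have n3 : st true true ≠ st false false := fun h => by
      have := congrFun h 0; simp [st] at this
    refine ⟨by simp [del], ?_, ?_, ?_⟩
    · simp [del, n1]
    · simp only [pow_zero, Module.End.one_apply, del, if_neg n2]
      field_simp
      ring
    · simp only [pow_zero, Module.End.one_apply, del, if_neg n3]
      simp
  | succ n ih =>
    obtain ⟨i0, i1, i2, i3⟩ := ih
    simp only [pow_succ', Module.End.mul_apply]
    rw [Dop_two_apply, Dop_two_apply, Dop_two_apply, Dop_two_apply]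
    simp only [nu_apply, hh_zero_apply, hh_one_apply, st_zero, st_one, u1, u2, u3, i0, i1, i2, i3]
    refine ⟨?_, ?_, ?_, ?_⟩
    · simp
    · simp
      field_simp
      ring
    · simp
      field_simp
      ring
    · simp
      field_simp
      ring

/-- the two site amplitude is a third divided difference -/
theorem amp_two (t : ℕ → K) (h0 : t 0 ≠ 0) (h1 : t 1 ≠ 0) (h01 : t 0 ≠ t 1)
    (hs : t 0 + t 1 ≠ 0) (g : K[X]) :
    amp 2 t g (st true true) (st false false) = dd4 (t 0) (t 1) g := by
  unfold amp dd4
  induction g using Polynomial.induction_on' with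
  | add p q hp hq =>
    simp only [map_add, LinearMap.add_apply, Pi.add_apply, hp, hq, eval_add]
    ring
  | monomial n a =>
    rw [aeval_monomial]
    simp only [Module.End.mul_apply, Module.algebraMap_end_apply, Pi.smul_apply,
      eval_monomial, smul_eq_mul]
    rw [(pow_two t h0 h1 h01 hs n).2.2.2]
    ring

end Pool.Agent.H32.TW
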