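import Pool.Agent.H32.TW.Op

/-!
# Exchange of two neighbouring nodes (MP_1e629d_co, part C2)
-/

namespace Pool.Agent.H32.TW

open Function

variable {K : Type*} [Field K]

lemma upd4_comm {a b c d : ℕ} (h1 : a ≠ c) (h2 : a ≠ d) (h3 : b ≠ c) (h4 : b ≠ d)
    (s : ℕ → Bool) (x y z w : Bool) :
    update (update (update (update s a x) b y) c z) d w
      = update (update (update (update s c z) d w) a x) b y := by
  funext i
  simp only [update_apply]
  by_cases ha : i = a
  · subst ha
    simp [h1, h2]
  · by_cases hb : i = b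
    · subst hb
      simp [h3, h4]
    · simp [ha, hb]

lemma hh_zero_BB_zero :
    (hh 0 * BB 0 : Module.End K ((ℕ → Bool) → K)) = 0 := by
  ext ψ s
  simp only [Module.End.mul_apply, hh_zero_apply, BB_apply]
  simp

lemma BB_zero_hh_zero :
    (BB 0 * hh 0 : Module.End K ((ℕ → Bool) → K)) = 0 := by
  ext ψ s
  simp only [Module.End.mul_apply, hh_zero_apply, BB_apply]
  simp

lemma hh_BB_comm {i j : ℕ} (h : i ≠ j + 1) :
    (hh i * BB j : Module.End K ((ℕ → Bool) → K)) = BB j * hh i := by
  ext ψ s
  rcases i with _ | k
  · rcases j with _ | j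
    · rw [hh_zero_BB_zero, BB_zero_hh_zero]
    · simp only [Module.End.mul_apply, hh_zero_apply, BB_apply]
      rw [update_of_ne (by omega : j + 1 ≠ 0), update_of_ne (by omega : j + 1 + 1 ≠ 0),
        update_of_ne (by omega : (0 : ℕ) ≠ j + 1 + 1), update_of_ne (by omega : (0 : ℕ) ≠ j + 1)]
      have e : update (update (update s 0 false) (j + 1) false) (j + 1 + 1) true
          = update (update (update s (j + 1) false) (j + 1 + 1) true) 0 false := by
        funext i
        simp only [update_apply]
        by_cases h0 : i = 0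
        · subst h0; simp
        · simp [h0]
      rw [e]
      by_cases ha : s 0 = true <;> by_cases hb : s (j + 1) = true ∧ s (j + 1 + 1) = false <;>
        simp [ha, hb]
  · have hkj : k ≠ j := fun e => h (by rw [e])
    simp only [Module.End.mul_apply, hh_succ_apply, BB_apply]
    by_cases h1 : k + 1 = j
    · subst h1
      simp
    · by_cases h2 : k = j + 1
      · subst h2
        simp
      · rw [update_of_ne (by omega : j ≠ k), update_of_ne (by omega : j ≠ k + 1),
          update_of_ne (by omega : j + 1 ≠ k), update_of_ne (by omega : j + 1 ≠ k + 1),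
          update_of_ne (by omega : k + 1 ≠ j + 1), update_of_ne (by omega : k + 1 ≠ j),
          update_of_ne (by omega : k ≠ j + 1), update_of_ne (by omega : k ≠ j),
          upd4_comm (by omega : k + 1 ≠ j) (by omega : k + 1 ≠ j + 1) hkj h2]
        by_cases ha : s (k + 1) = true ∧ s k = false <;>
          by_cases hb : s j = true ∧ s (j + 1) = false <;> simp [ha, hb]

lemma upd_back (j : ℕ) (s : ℕ → Bool) (h1 : s (j + 1) = true) (h2 : s j = false) :
    update (update (update (update s (j + 1) false) j true) j false) (j + 1) true = s := by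
  funext i
  simp only [update_apply]
  by_cases ha : i = j + 1
  · subst ha; simp [h1]
  · by_cases hb : i = j
    · subst hb; simp [h2]
    · simp [ha, hb]

lemma upd_back' (j : ℕ) (s : ℕ → Bool) (h1 : s j = true) (h2 : s (j + 1) = false) :
    update (update (update (update s j false) (j + 1) true) (j + 1) false) j true = s := by
  funext i
  simp only [update_apply]
  by_cases ha : i = j + 1
  · subst ha; simp [h2]
  · by_cases hb : i = j
    · subst hb; simp [h1]
    · simp [ha, hb]

lemma hh_BB_sub (j : ℕ) :
    (hh (j + 1) * BB j - BB j * hh (j + 1) : Module.End K ((ℕ → Bool) → K))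
      = nu (j + 1) - nu j := by
  ext ψ s
  simp only [Module.End.mul_apply, LinearMap.sub_apply, Pi.sub_apply, hh_succ_apply, BB_apply,
    nu_apply]
  rcases Bool.eq_false_or_eq_true (s j) with ha | ha <;>
    rcases Bool.eq_false_or_eq_true (s (j + 1)) with hb | hb
  · simp [ha, hb]
  · have := upd_back' j s ha hb
    simp [ha, hb] at this ⊢
    rw [this]
  · have := upd_back j s hb ha
    simp [ha, hb] at this ⊢
    rw [this]
  · simp [ha, hb]

/-- the exchange identity -/
theorem exch (N j : ℕ) (hj : j + 1 < N) (t : ℕ → K) :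
    Dop N t * (1 + (t j - t (j + 1)) • BB j)
      = (1 + (t j - t (j + 1)) • BB j) * Dop N (t ∘ Equiv.swap j (j + 1)) := by
  set c : K := t j - t (j + 1) with hc
  set t' : ℕ → K := t ∘ Equiv.swap j (j + 1) with ht'
  have hj' : t' j = t (j + 1) := by simp [ht']
  have hj1' : t' (j + 1) = t j := by simp [ht']
  have ho : ∀ i, i ≠ j → i ≠ j + 1 → t' i = t i := by
    intro i h1 h2
    simp [ht', Equiv.swap_apply_of_ne_of_ne h1 h2]
  rw [← sub_eq_zero]
  have key : Dop N t * (1 + c • BB j) - (1 + c • BB j) * Dop N t'
      = ∑ i ∈ Finset.range N, ((t i • nu i + hh i) * (1 + c • BB j)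
          - (1 + c • BB j) * (t' i • nu i + hh i)) := by
    rw [Dop, Dop, Finset.sum_mul, Finset.mul_sum, Finset.sum_sub_distrib]
  rw [key]
  have hz : ∀ i ∈ Finset.range N, i ∉ ({j, j + 1} : Finset ℕ) →
      ((t i • nu i + hh i) * (1 + c • BB j)
          - (1 + c • BB j) * (t' i • nu i + hh i) : Module.End K ((ℕ → Bool) → K)) = 0 := by
    intro i _ hi
    simp only [Finset.mem_insert, Finset.mem_singleton, not_or] at hi
    rw [ho i hi.1 hi.2]
    have e1 := nu_BB_comm (K := K) hi.1 hi.2
    have e2 := hh_BB_comm (K := K) hi.2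
    simp only [mul_add, add_mul, mul_one, one_mul, mul_smul_comm, smul_mul_assoc, e1, e2]
    module
  have hsub : ({j, j + 1} : Finset ℕ) ⊆ Finset.range N := by
    intro i hi
    simp only [Finset.mem_insert, Finset.mem_singleton] at hi
    rw [Finset.mem_range]
    omega
  rw [← Finset.sum_subset hsub hz, Finset.sum_pair (by omega), hj', hj1']
  have e0 := hh_BB_comm (K := K) (i := j) (j := j) (by omega)
  have e3 := hh_BB_sub (K := K) j
  have e4 : (hh (j + 1) * BB j : Module.End K ((ℕ → Bool) → K))
      = BB j * hh (j + 1) + (nu (j + 1) - nu j) := by rw [← e3]; abel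
  simp only [mul_add, add_mul, mul_one, one_mul, mul_smul_comm, smul_mul_assoc,
    nu_BB_self, nu_succ_BB, BB_nu_self, BB_nu_succ, e0, e4, smul_zero, smul_add, smul_sub,
    add_zero, zero_add]
  rw [hc]
  simp only [sub_smul]
  module

end Pool.Agent.H32.TW
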