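import Pool.Agent.H32.TW.Amp

/-!
# A full top site is inert; two sites (MP_1e629d_co, part C2)
-/

namespace Pool.Agent.H32.TW

open Function Polynomial

variable {K : Type*} [Field K]

/-- adds a particle at the site `k` -/
def inj (k : ℕ) : Module.End K ((ℕ → Bool) → K) where
  toFun φ s := if s k = true then φ (update s k false) else 0
  map_add' ψ φ := by
    funext s; by_cases h : s k = true <;> simp [h]
  map_smul' c ψ := by
    funext s; by_cases h : s k = true <;> simp [h]

lemma inj_apply (k : ℕ) (ψ : (ℕ → Bool) → K) (s : ℕ → Bool) :
    inj k ψ s = if s k = true then ψ (update s k false) else 0 := rfl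

lemma nu_inj_comm {i k : ℕ} (h : i ≠ k) :
    (nu i * inj k : Module.End K ((ℕ → Bool) → K)) = inj k * nu i := by
  ext ψ s
  simp only [Module.End.mul_apply, nu_apply, inj_apply]
  rw [update_of_ne h]
  by_cases ha : s i = true <;> by_cases hb : s k = true <;> simp [ha, hb]

lemma nu_inj_self (k : ℕ) :
    (nu k * inj k : Module.End K ((ℕ → Bool) → K)) = inj k := by
  ext ψ s
  simp only [Module.End.mul_apply, nu_apply, inj_apply]
  by_cases hb : s k = true <;> simp [hb]

lemma hh_inj_self (k : ℕ) :
    (hh k * inj k : Module.End K ((ℕ → Bool) → K)) = 0 := by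
  ext ψ s
  rcases k with _ | k
  · simp only [Module.End.mul_apply, hh_zero_apply, inj_apply]
    simp
  · simp only [Module.End.mul_apply, hh_succ_apply, inj_apply]
    rw [update_of_ne (by omega)]
    simp

lemma hh_inj_comm {i k : ℕ} (h : i < k) :
    (hh i * inj k : Module.End K ((ℕ → Bool) → K)) = inj k * hh i := by
  ext ψ s
  rcases i with _ | i
  · simp only [Module.End.mul_apply, hh_zero_apply, inj_apply]
    rw [update_of_ne (by omega : k ≠ 0), update_of_ne (by omega : 0 ≠ k),
      update_comm (by omega : k ≠ 0)]
    by_cases ha : s 0 = true <;> by_cases hb : s k = true <;> simp [ha, hb]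
  · simp only [Module.End.mul_apply, hh_succ_apply, inj_apply]
    rw [update_of_ne (by omega : k ≠ i), update_of_ne (by omega : k ≠ i + 1),
      update_of_ne (by omega : i + 1 ≠ k), update_of_ne (by omega : i ≠ k)]
    have e : update (update (update s (i + 1) false) i true) k false
        = update (update (update s k false) (i + 1) false) i true := by
      funext x
      simp only [update_apply]
      by_cases h1 : x = k
      · subst h1
        rw [if_pos rfl, if_neg (by omega), if_neg (by omega), if_pos rfl]
      · simp [h1]
    rw [e]
    by_cases ha : s (i + 1) = true ∧ s i = false <;> by_cases hb : s k = true <;> simp [ha, hb]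

lemma Dop_inj (k : ℕ) (t : ℕ → K) :
    Dop (k + 1) t * inj k = inj k * (Dop k t + t k • 1) := by
  unfold Dop
  rw [Finset.sum_range_succ, add_mul, add_mul, hh_inj_self, smul_mul_assoc, nu_inj_self, add_zero,
    mul_add, mul_smul_comm, mul_one, Finset.sum_mul, Finset.mul_sum]
  congr 1
  apply Finset.sum_congr rfl
  intro i hi
  rw [Finset.mem_range] at hi
  rw [add_mul, mul_add, hh_inj_comm hi, smul_mul_assoc, nu_inj_comm (by omega), mul_smul_comm]

lemma inj_del (k : ℕ) (u : ℕ → Bool) (hu : u k = false) :
    inj k (del u : (ℕ → Bool) → K) = del (update u k true) := by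
  funext s
  rw [inj_apply]
  unfold del
  by_cases hs : s = update u k true
  · have h1 : s k = true := by rw [hs]; simp
    have h2 : update s k false = u := by
      rw [hs]
      funext x
      simp only [update_apply]
      by_cases hx : x = k
      · subst hx; simp [hu]
      · simp [hx]
    rw [if_pos h1, if_pos h2, if_pos hs]
  · rw [if_neg hs]
    by_cases h1 : s k = true
    · rw [if_pos h1, if_neg]
      intro e
      apply hs
      rw [← e]
      funext x
      simp only [update_apply]
      by_cases hx : x = k
      · subst hx; simp [h1]
      · simp [hx]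
    · rw [if_neg h1]

/-- a particle which stays at the top site `k` only shifts `g` by its node -/
theorem amp_inert (k : ℕ) (t : ℕ → K) (g : K[X]) (v u : ℕ → Bool)
    (hv : v k = false) (hu : u k = false) :
    amp (k + 1) t g (update v k true) (update u k true)
      = amp k t (g.comp (X + C (t k))) v u := by
  unfold amp
  rw [← inj_del k u hu, ← Module.End.mul_apply, aeval_semi (Dop_inj k t) g, aeval_shift,
    Module.End.mul_apply, inj_apply]
  have h2 : update (update v k true) k false = v := by
    funext x
    simp only [update_apply]
    by_cases hx : x = k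
    · subst hx; simp [hv]
    · simp [hx]
  rw [h2]
  simp

end Pool.Agent.H32.TW
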