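import Mathlib

/-!
# The Fock space of the two strip functionals (MP_1e629d_co, part C2)

States are `s : ℕ → Bool` (site `i` is full iff `s i = true`), vectors are functions on states.
`nu i` is the number operator of site `i`, `hh 0` creates a particle at site `0`, `hh (i+1)` moves a
particle from `i` to `i+1`.  `Dop N t = ∑_{i<N} (t i • nu i + hh i)`, signed nodes `t`.
`BB j` moves a particle from `j+1` back to `j`.  The exchange identity `exch` says that
`1 + (t j - t (j+1)) BB j` intertwines `Dop N t` with `Dop N (t ∘ swap j (j+1))`.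
-/

namespace Pool.Agent.H32.TW

open Function

variable {K : Type*} [Field K]

/-- number operator of the site `i` -/
def nu (i : ℕ) : Module.End K ((ℕ → Bool) → K) where
  toFun ψ s := if s i = true then ψ s else 0
  map_add' ψ φ := by
    funext s; by_cases h : s i = true <;> simp [h]
  map_smul' c ψ := by
    funext s; by_cases h : s i = true <;> simp [h]

/-- `hh 0` creates a particle at site `0`, `hh (i+1)` moves a particle from `i` to `i+1` -/
def hh : ℕ → Module.End K ((ℕ → Bool) → K)
  | 0 =>
    { toFun := fun ψ s => if s 0 = true then ψ (update s 0 false) else 0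
      map_add' := fun ψ φ => by
        funext s; by_cases h : s 0 = true <;> simp [h]
      map_smul' := fun c ψ => by
        funext s; by_cases h : s 0 = true <;> simp [h] }
  | (i + 1) =>
    { toFun := fun ψ s => if s (i + 1) = true ∧ s i = false then
        ψ (update (update s (i + 1) false) i true) else 0
      map_add' := fun ψ φ => by
        funext s; by_cases h : s (i + 1) = true ∧ s i = false <;> simp [h]
      map_smul' := fun c ψ => by
        funext s; by_cases h : s (i + 1) = true ∧ s i = false <;> simp [h] }

/-- moves a particle from `j+1` back to `j` -/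
def BB (j : ℕ) : Module.End K ((ℕ → Bool) → K) where
  toFun ψ s := if s j = true ∧ s (j + 1) = false then
    ψ (update (update s j false) (j + 1) true) else 0
  map_add' ψ φ := by
    funext s; by_cases h : s j = true ∧ s (j + 1) = false <;> simp [h]
  map_smul' c ψ := by
    funext s; by_cases h : s j = true ∧ s (j + 1) = false <;> simp [h]

/-- the operator `D` with signed nodes `t` on the sites `< N` -/
def Dop (N : ℕ) (t : ℕ → K) : Module.End K ((ℕ → Bool) → K) :=
  ∑ i ∈ Finset.range N, (t i • nu i + hh i)

lemma nu_apply (i : ℕ) (ψ : (ℕ → Bool) → K) (s : ℕ → Bool) :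
    nu i ψ s = if s i = true then ψ s else 0 := rfl

lemma hh_zero_apply (ψ : (ℕ → Bool) → K) (s : ℕ → Bool) :
    hh 0 ψ s = if s 0 = true then ψ (update s 0 false) else 0 := rfl

lemma hh_succ_apply (i : ℕ) (ψ : (ℕ → Bool) → K) (s : ℕ → Bool) :
    hh (i + 1) ψ s = if s (i + 1) = true ∧ s i = false then
      ψ (update (update s (i + 1) false) i true) else 0 := rfl

lemma BB_apply (j : ℕ) (ψ : (ℕ → Bool) → K) (s : ℕ → Bool) :
    BB j ψ s = if s j = true ∧ s (j + 1) = false then
      ψ (update (update s j false) (j + 1) true) else 0 := rfl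

lemma nu_BB_comm {i j : ℕ} (h1 : i ≠ j) (h2 : i ≠ j + 1) :
    (nu i * BB j : Module.End K ((ℕ → Bool) → K)) = BB j * nu i := by
  ext ψ s
  simp only [Module.End.mul_apply, nu_apply, BB_apply]
  rw [update_of_ne h2, update_of_ne h1]
  by_cases ha : s i = true <;> by_cases hb : s j = true ∧ s (j + 1) = false <;> simp [ha, hb]

lemma nu_BB_self (j : ℕ) : (nu j * BB j : Module.End K ((ℕ → Bool) → K)) = BB j := by
  ext ψ s
  simp only [Module.End.mul_apply, nu_apply, BB_apply]
  by_cases ha : s j = true <;> simp [ha]

lemma nu_succ_BB (j : ℕ) : (nu (j + 1) * BB j : Module.End K ((ℕ → Bool) → K)) = 0 := by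
  ext ψ s
  simp only [Module.End.mul_apply, nu_apply, BB_apply]
  by_cases ha : s (j + 1) = true <;> simp [ha]

lemma BB_nu_self (j : ℕ) : (BB j * nu j : Module.End K ((ℕ → Bool) → K)) = 0 := by
  ext ψ s
  simp only [Module.End.mul_apply, nu_apply, BB_apply]
  rw [update_of_ne (by omega)]
  by_cases ha : s j = true ∧ s (j + 1) = false <;> simp [ha]

lemma BB_nu_succ (j : ℕ) : (BB j * nu (j + 1) : Module.End K ((ℕ → Bool) → K)) = BB j := by
  ext ψ s
  simp only [Module.End.mul_apply, nu_apply, BB_apply]
  by_cases ha : s j = true ∧ s (j + 1) = false <;> simp [ha]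

end Pool.Agent.H32.TW
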