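import Pool.Agent.H32.TW.Tow
import Pool.Agent.H35.Tw.Base

/-!
# The sum over all subsets satisfies the recursion of helper35's `W` (MP_1e629d_co, part C2)
-/

set_option autoImplicit false

namespace Pool.Agent.H32.TW

open Function Polynomial Finset

variable {K : Type} [Field K]

set_option linter.unusedSectionVars false

/-- the state of a finite set of sites -/
def fs (A : Finset ℕ) : ℕ → Bool := fun i => decide (i ∈ A)

lemma fs_insert (k : ℕ) (A : Finset ℕ) : fs (insert k A) = update (fs A) k true := by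
  funext i
  by_cases h : i = k
  · subst h; simp [fs]
  · simp [fs, h]

lemma fs_false {A : Finset ℕ} {m : ℕ} (h : A ⊆ range m) (i : ℕ) (hi : m ≤ i) :
    fs A i = false := by
  simp only [fs, decide_eq_false_iff_not]
  intro hA
  have := Finset.mem_range.1 (h hA)
  omega

/-- number of the sites of `S` in `(s, m)` -/
def cS (m : ℕ) (S : Finset ℕ) (s : ℕ) : ℕ := ((range m).filter fun i => s < i ∧ i ∈ S).card

/-- signed nodes of the word `S` in the window starting at `b` -/
def nd (x : ℕ → K) (m b : ℕ) (S : Finset ℕ) (y z : K) (s : ℕ) : K :=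
  if s = m then y else if s = m + 1 then z
  else if s ∈ S then -x (b + cS m S s) else x (b + s + cS m S s)

/-- sum of the absolute values of the negative nodes -/
def ng (x : ℕ → K) (m b : ℕ) (S : Finset ℕ) : K := ∑ s ∈ S, x (b + cS m S s)

/-- the weighted sum of amplitudes -/
noncomputable def T (q : K) (x : ℕ → K) (m b : ℕ) (y z : K) (g : K[X]) : K :=
  ∑ S ∈ (range m).powerset, q ^ (∑ s ∈ range m \ S, (s + 1))
    * amp (m + 2) (nd x m b S y z) (g.comp (X + C (ng x m b S))) (fs (S ∪ {m, m + 1})) (fs S)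

lemma cS_succ {m : ℕ} {S : Finset ℕ} (hS : S ⊆ range m) (s : ℕ) :
    cS (m + 1) S s = cS m S s := by
  unfold cS
  congr 1
  ext i
  simp only [mem_filter, mem_range]
  constructor
  · rintro ⟨_, h2, h3⟩
    exact ⟨mem_range.1 (hS h3), h2, h3⟩
  · rintro ⟨h1, h2, h3⟩
    exact ⟨by omega, h2, h3⟩

lemma cS_insert {m : ℕ} {S : Finset ℕ} (hS : S ⊆ range m) {s : ℕ} (hs : s < m) :
    cS (m + 1) (insert m S) s = cS m S s + 1 := by
  unfold cS
  have hm : m ∉ S := fun h => by
    have := mem_range.1 (hS h)
    omega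
  have : ((range (m + 1)).filter fun i => s < i ∧ i ∈ insert m S)
      = insert m ((range m).filter fun i => s < i ∧ i ∈ S) := by
    ext i
    simp only [mem_filter, mem_range, mem_insert]
    constructor
    · rintro ⟨h1, h2, h3 | h3⟩
      · exact Or.inl h3
      · exact Or.inr ⟨mem_range.1 (hS h3), h2, h3⟩
    · rintro (h1 | ⟨h1, h2, h3⟩)
      · subst h1
        exact ⟨by omega, hs, Or.inl rfl⟩
      · exact ⟨by omega, h2, Or.inr h3⟩
  rw [this, card_insert_of_notMem]
  simp

lemma cS_self (m : ℕ) (S : Finset ℕ) : cS (m + 1) S m = 0 := by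
  unfold cS
  rw [card_eq_zero, filter_eq_empty_iff]
  intro i hi h
  have := mem_range.1 hi
  omega

lemma union_pair (S : Finset ℕ) (m : ℕ) :
    fs (S ∪ {m, m + 1}) = update (update (fs S) m true) (m + 1) true := by
  rw [← fs_insert, ← fs_insert]
  congr 1
  ext i
  simp only [mem_union, mem_insert, mem_singleton]
  tauto

/-- term of a set without the site `m` -/
lemma term_A (x : ℕ → K) (m b : ℕ) (S : Finset ℕ) (hS : S ⊆ range m) (y z : K) (g : K[X])
    (hyz : y ≠ z) (h1 : x (b + m) ≠ y) (h2 : x (b + m) ≠ z) :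
    amp (m + 1 + 2) (nd x (m + 1) b S y z) (g.comp (X + C (ng x (m + 1) b S)))
        (fs (S ∪ {m + 1, m + 1 + 1})) (fs S)
      = Pool.Agent.H35.Tw.tri (fun y z _ =>
          amp (m + 2) (nd x m b S y z) (g.comp (X + C (ng x m b S))) (fs (S ∪ {m, m + 1})) (fs S))
        (x (b + m)) y z := by
  have hm : m ∉ S := fun h => by
    have := mem_range.1 (hS h)
    omega
  have hm1 : m + 1 ∉ S := fun h => by
    have := mem_range.1 (hS h)
    omega
  have hng : ng x (m + 1) b S = ng x m b S := by
    unfold ng
    exact sum_congr rfl fun s _ => by rw [cS_succ hS]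
  rw [hng, union_pair]
  have hA := stepA m (nd x (m + 1) b S y z) (g.comp (X + C (ng x m b S))) (fs S) (fs S)
    (x (b + m)) y z (fs_false hS) (fs_false hS)
    (by
      unfold nd
      rw [if_neg (by omega), if_neg (by omega), if_neg hm, cS_self, add_zero])
    (by
      unfold nd
      rw [if_pos rfl])
    (by
      unfold nd
      rw [if_neg (by omega), if_pos rfl]) h1 h2 hyz
  have hPP : ∀ a' b' : K, PP m (nd x (m + 1) b S y z) (g.comp (X + C (ng x m b S))) (fs S) (fs S)
      a' b' = amp (m + 2) (nd x m b S a' b') (g.comp (X + C (ng x m b S))) (fs (S ∪ {m, m + 1}))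
        (fs S) := by
    intro a' b'
    rw [union_pair]
    symm
    apply PP_eq m _ _ _ _ _ _ _ (fs_false hS)
    · unfold nd
      rw [if_pos rfl]
    · unfold nd
      rw [if_neg (by omega), if_pos rfl]
    · intro i hi
      have n1 : ¬ i = m := by omega
      have n2 : ¬ i = m + 1 := by omega
      have n3 : ¬ i = m + 1 + 1 := by omega
      simp only [nd, if_neg n1, if_neg n2, if_neg n3, cS_succ hS]
    · exact le_rfl
  rw [hPP, hPP, hPP] at hA
  rw [show m + 1 + 2 = m + 3 from rfl, show m + 1 + 1 = m + 2 from rfl, hA]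
  unfold Pool.Agent.H35.Tw.tri
  ring

/-- term of a set with the site `m` -/
lemma term_B (x : ℕ → K) (m b : ℕ) (S : Finset ℕ) (hS : S ⊆ range m) (y z : K) (g : K[X])
    (hyz : y ≠ z) (h1 : -x b ≠ y) (h2 : -x b ≠ z) :
    amp (m + 1 + 2) (nd x (m + 1) b (insert m S) y z)
        (g.comp (X + C (ng x (m + 1) b (insert m S))))
        (fs (insert m S ∪ {m + 1, m + 1 + 1})) (fs (insert m S))
      = Pool.Agent.H35.Tw.tri (fun y z w =>
          amp (m + 2) (nd x m (b + 1) S y z)
            ((g.comp (X + C (w + x b))).comp (X + C (ng x m (b + 1) S)))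
            (fs (S ∪ {m, m + 1})) (fs S))
        (-x b) y z := by
  have hm : m ∉ S := fun h => by
    have := mem_range.1 (hS h)
    omega
  have hm1 : m + 1 ∉ S := fun h => by
    have := mem_range.1 (hS h)
    omega
  have hng : ng x (m + 1) b (insert m S) = x b + ng x m (b + 1) S := by
    unfold ng
    rw [sum_insert hm, cS_self, add_zero]
    congr 1
    refine sum_congr rfl fun s hs => ?_
    rw [cS_insert hS (mem_range.1 (hS hs))]
    congr 1
    omega
  rw [hng, union_pair, fs_insert]
  have hB := stepB m (nd x (m + 1) b (insert m S) y z) (g.comp (X + C (x b + ng x m (b + 1) S)))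
    (fs S) (fs S) (-x b) y z (fs_false hS) (fs_false hS)
    (by
      unfold nd
      rw [if_neg (by omega), if_neg (by omega), if_pos (mem_insert_self _ _), cS_self, add_zero])
    (by
      unfold nd
      rw [if_pos rfl])
    (by
      unfold nd
      rw [if_neg (by omega), if_pos rfl]) h1 h2 hyz
  have hPP : ∀ (G : K[X]) (a' b' : K), PP m (nd x (m + 1) b (insert m S) y z) G (fs S) (fs S)
      a' b' = amp (m + 2) (nd x m (b + 1) S a' b') G (fs (S ∪ {m, m + 1})) (fs S) := by
    intro G a' b'
    rw [union_pair]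
    symm
    apply PP_eq m _ _ _ _ _ _ _ (fs_false hS)
    · unfold nd
      rw [if_pos rfl]
    · unfold nd
      rw [if_neg (by omega), if_pos rfl]
    · intro i hi
      have n1 : ¬ i = m := by omega
      have n2 : ¬ i = m + 1 := by omega
      have n3 : ¬ i = m + 1 + 1 := by omega
      simp only [nd, if_neg n1, if_neg n2, if_neg n3, cS_insert hS hi]
      have e : (i ∈ insert m S) ↔ i ∈ S := by
        rw [mem_insert]
        constructor
        · rintro (h | h)
          · omega
          · exact h
        · exact Or.inr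
      by_cases hi' : i ∈ S
      · rw [if_pos hi', if_pos (e.2 hi')]
        congr 2
        omega
      · rw [if_neg hi', if_neg (fun h => hi' (e.1 h))]
        congr 1
        omega
    · exact le_rfl
  have hG : ∀ w : K, (g.comp (X + C (x b + ng x m (b + 1) S))).comp (X + C w)
      = (g.comp (X + C (w + x b))).comp (X + C (ng x m (b + 1) S)) := by
    intro w
    rw [Polynomial.comp_assoc, Polynomial.comp_assoc]
    congr 1
    simp only [add_comp, X_comp, C_comp, map_add]
    ring
  rw [hPP, hPP, hPP, hG, hG, hG] at hB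
  rw [show m + 1 + 2 = m + 3 from rfl, show m + 1 + 1 = m + 2 from rfl, hB]
  unfold Pool.Agent.H35.Tw.tri
  ring

lemma sum_tri {ι : Type*} (s : Finset ι) (c : ι → K) (F : ι → K → K → K → K) (a b d : K) :
    ∑ i ∈ s, c i * Pool.Agent.H35.Tw.tri (F i) a b d
      = Pool.Agent.H35.Tw.tri (fun y z w => ∑ i ∈ s, c i * F i y z w) a b d := by
  unfold Pool.Agent.H35.Tw.tri
  rw [Finset.sum_div, Finset.sum_div, Finset.sum_div, ← Finset.sum_add_distrib,
    ← Finset.sum_add_distrib]
  exact sum_congr rfl fun i _ => by ring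

theorem T_succ (q : K) (x : ℕ → K) (m b : ℕ) (y z : K) (g : K[X]) (hyz : y ≠ z)
    (h1 : x (b + m) ≠ y) (h2 : x (b + m) ≠ z) (h3 : -(x b) ≠ y) (h4 : -(x b) ≠ z) :
    T q x (m + 1) b y z g
      = q ^ (m + 1) * Pool.Agent.H35.Tw.tri (fun y z _ => T q x m b y z g) (x (b + m)) y z
        + Pool.Agent.H35.Tw.tri
            (fun y z w => T q x m (b + 1) y z (g.comp (X + C (w + x b)))) (-(x b)) y z := by
  unfold T
  rw [range_add_one, sum_powerset_insert notMem_range_self]
  congr 1
  · rw [← sum_tri, mul_sum]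
    refine sum_congr rfl fun S hS => ?_
    rw [mem_powerset] at hS
    have hm : m ∉ S := fun h => by
      have := mem_range.1 (hS h)
      omega
    rw [term_A x m b S hS y z g hyz h1 h2, insert_sdiff_of_notMem _ hm,
      sum_insert (by simp), pow_add, mul_assoc]
  · rw [← sum_tri]
    refine sum_congr rfl fun S hS => ?_
    rw [mem_powerset] at hS
    rw [term_B x m b S hS y z g hyz h3 h4]
    have hm : m ∉ range m := notMem_range_self
    have e : insert m (range m) \ insert m S = range m \ S := by
      ext i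
      simp only [mem_sdiff, mem_insert, mem_range]
      constructor
      · rintro ⟨h5, h6⟩
        push Not at h6
        exact ⟨by omega, h6.2⟩
      · rintro ⟨h5, h6⟩
        exact ⟨Or.inr h5, by
          push Not
          exact ⟨by omega, h6⟩⟩
    rw [e]

theorem T_zero (q : K) (x : ℕ → K) (b : ℕ) (y z : K) (g : K[X]) (hy : y ≠ 0) (hz : z ≠ 0)
    (h1 : y - z ≠ 0) (h2 : y + z ≠ 0) :
    T q x 0 b y z g = (Pool.Agent.H35.Tw.Sys.base K).M y z g := by
  rw [Pool.Agent.H35.Tw.base_M y z g hy hz h1 h2]
  unfold T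
  have e1 : ((∅ : Finset ℕ) ∪ {0, 0 + 1}) = {0, 1} := by simp
  have e2 : fs {0, 1} = st true true := by
    funext i
    rcases i with _ | _ | i <;> simp [fs, st]
  have e3 : fs ∅ = st false false := by
    funext i
    rcases i with _ | _ | i <;> simp [fs, st]
  simp only [range_zero, powerset_empty, sum_singleton, sdiff_self, bot_eq_empty, sum_empty,
    pow_zero, one_mul]
  rw [e1, e2, e3]
  have hn : ng x 0 b (∅ : Finset ℕ) = 0 := by simp [ng]
  have hn0 : nd x 0 b (∅ : Finset ℕ) y z 0 = y := by simp [nd]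
  have hn1 : nd x 0 b (∅ : Finset ℕ) y z 1 = z := by simp [nd]
  rw [hn, map_zero, add_zero, comp_X, show 0 + 2 = 2 from rfl,
    amp_two _ (by rw [hn0]; exact hy) (by rw [hn1]; exact hz)
      (by rw [hn0, hn1]; exact fun h => h1 (sub_eq_zero.2 h)) (by rw [hn0, hn1]; exact h2),
    hn0, hn1, dd4]
  field_simp

end Pool.Agent.H32.TW
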