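import Pool.Agent.H32.TW.Base

/-!
# The two recursion steps of the towers (MP_1e629d_co, part C2)

`w`, `u` are states on the sites `< m`.  `PP m t g w u a b` is the amplitude from `u` to
`w + {m, m+1}` with the nodes `a, b` at the sites `m, m+1`.
-/

namespace Pool.Agent.H32.TW

open Function Polynomial

variable {K : Type*} [Field K]

set_option linter.unusedSectionVars false

/-- replace the nodes of the sites `m`, `m+1` -/
def tt (t : ℕ → K) (m : ℕ) (a b : K) : ℕ → K := update (update t m a) (m + 1) b

/-- amplitude from `u` to `w + {m, m+1}` with nodes `a, b` at the sites `m, m+1` -/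
noncomputable def PP (m : ℕ) (t : ℕ → K) (g : K[X]) (w u : ℕ → Bool) (a b : K) : K :=
  amp (m + 2) (tt t m a b) g (update (update w m true) (m + 1) true) u

lemma tt_self (t : ℕ → K) (m : ℕ) (a b : K) : tt t m a b m = a := by
  simp [tt]

lemma tt_succ (t : ℕ → K) (m : ℕ) (a b : K) : tt t m a b (m + 1) = b := by
  simp [tt]

lemma tt_of_ne (t : ℕ → K) (m : ℕ) (a b : K) (i : ℕ) (h1 : i ≠ m) (h2 : i ≠ m + 1) :
    tt t m a b i = t i := by
  simp [tt, h1, h2]

lemma swap_val (t : ℕ → K) (j : ℕ) : (t ∘ Equiv.swap j (j + 1)) j = t (j + 1) := by simp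

lemma swap_val' (t : ℕ → K) (j : ℕ) : (t ∘ Equiv.swap j (j + 1)) (j + 1) = t j := by simp

lemma swap_val_ne (t : ℕ → K) (j i : ℕ) (h1 : i ≠ j) (h2 : i ≠ j + 1) :
    (t ∘ Equiv.swap j (j + 1)) i = t i := by
  simp [Equiv.swap_apply_of_ne_of_ne h1 h2]

lemma swap_swap_comp (t : ℕ → K) (j : ℕ) :
    (t ∘ Equiv.swap j (j + 1)) ∘ Equiv.swap j (j + 1) = t := by
  funext i; simp

lemma PP_symm (m : ℕ) (t : ℕ → K) (g : K[X]) (w u : ℕ → Bool) (a b : K)
    (hu : ∀ i, m ≤ i → u i = false) : PP m t g w u a b = PP m t g w u b a := by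
  unfold PP
  have hs : tt t m b a = tt t m a b ∘ Equiv.swap m (m + 1) := by
    funext i
    by_cases h1 : i = m
    · subst h1; rw [swap_val, tt_self, tt_succ]
    · by_cases h2 : i = m + 1
      · subst h2; rw [swap_val', tt_succ, tt_self]
      · rw [swap_val_ne _ _ _ h1 h2, tt_of_ne _ _ _ _ _ h1 h2, tt_of_ne _ _ _ _ _ h1 h2]
  rw [hs]
  apply amp_sym
  · omega
  · simp
  · rw [hu (m + 1) (by omega)]
    simp

lemma PP_eq (m : ℕ) (t t' : ℕ → K) (g : K[X]) (w u : ℕ → Bool) (a b : K)
    (hw : ∀ i, m ≤ i → w i = false) (h1 : t' m = a) (h2 : t' (m + 1) = b)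
    (h3 : ∀ i < m, t' i = t i) (N : ℕ) (hN : m + 2 ≤ N) :
    amp N t' g (update (update w m true) (m + 1) true) u = PP m t g w u a b := by
  unfold PP
  apply amp_congr _ _ hN
  · intro i hi
    by_cases e1 : i = m
    · subst e1; rw [tt_self, h1]
    · by_cases e2 : i = m + 1
      · subst e2; rw [tt_succ, h2]
      · rw [tt_of_ne _ _ _ _ _ e1 e2, h3 i (by omega)]
  · intro i hi
    rw [update_of_ne (by omega), update_of_ne (by omega)]
    exact hw i (by omega)

/-- amplitude with final state `w + {m, m+2}` -/
lemma amp_101 (m : ℕ) (t t' : ℕ → K) (g : K[X]) (w u : ℕ → Bool)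
    (hw : ∀ i, m ≤ i → w i = false) (hu : ∀ i, m ≤ i → u i = false)
    (h3 : ∀ i < m, t' i = t i) (hne : t' (m + 2) - t' (m + 1) ≠ 0) :
    amp (m + 3) t' g (update (update w m true) (m + 2) true) u
      = (PP m t g w u (t' m) (t' (m + 2)) - PP m t g w u (t' m) (t' (m + 1)))
        / (t' (m + 2) - t' (m + 1)) := by
  rw [eq_div_iff hne]
  have hup := amp_up (m + 3) (m + 1) (by omega) (t' ∘ Equiv.swap (m + 1) (m + 1 + 1)) g
    (update (update w m true) (m + 1) true) u (by simp)
    (by
      rw [update_of_ne (by omega), update_of_ne (by omega)]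
      exact hw _ (by omega))
    (by
      rw [hu (m + 1 + 1) (by omega)]
      simp)
  rw [swap_swap_comp, swap_val, swap_val'] at hup
  have hst : update (update (update (update w m true) (m + 1) true) (m + 1) false) (m + 1 + 1) true
      = update (update w m true) (m + 2) true := by
    funext x
    simp only [update_apply]
    by_cases h1 : x = m + 2
    · simp [h1]
    · by_cases h2 : x = m + 1
      · subst h2
        simp [hw (m + 1) (by omega)]
      · simp [h1, h2]
  rw [hst] at hup
  rw [PP_eq m t (t' ∘ Equiv.swap (m + 1) (m + 1 + 1)) g w u (t' m) (t' (m + 2)) hw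
    (by rw [swap_val_ne _ _ _ (by omega) (by omega)]) (by rw [swap_val])
    (fun i hi => by rw [swap_val_ne _ _ _ (by omega) (by omega)]; exact h3 i hi) (m + 3) (by omega),
    PP_eq m t t' g w u (t' m) (t' (m + 1)) hw rfl rfl h3 (m + 3) (by omega)] at hup
  rw [hup, show m + 1 + 1 = m + 2 from rfl]
  ring

/-- **Step (A)**: the site `m` is empty in the initial and in the final state. -/
theorem stepA (m : ℕ) (t : ℕ → K) (g : K[X]) (w u : ℕ → Bool) (a b c : K)
    (hw : ∀ i, m ≤ i → w i = false) (hu : ∀ i, m ≤ i → u i = false)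
    (ha : t m = a) (hb : t (m + 1) = b) (hc : t (m + 2) = c)
    (hab : a ≠ b) (hac : a ≠ c) (hbc : b ≠ c) :
    amp (m + 3) t g (update (update w (m + 1) true) (m + 2) true) u
      = PP m t g w u a b / ((c - a) * (c - b)) + PP m t g w u a c / ((b - a) * (b - c))
        + PP m t g w u b c / ((a - b) * (a - c)) := by
  have hba' : b - a ≠ 0 := sub_ne_zero.2 hab.symm
  have hab' : a - b ≠ 0 := sub_ne_zero.2 hab
  have hca' : c - a ≠ 0 := sub_ne_zero.2 hac.symm
  have hac' : a - c ≠ 0 := sub_ne_zero.2 hac
  have hcb' : c - b ≠ 0 := sub_ne_zero.2 hbc.symm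
  have hbc' : b - c ≠ 0 := sub_ne_zero.2 hbc
  have hup := amp_up (m + 3) m (by omega) (t ∘ Equiv.swap m (m + 1)) g
    (update (update w m true) (m + 2) true) u
    (by rw [update_of_ne (by omega)]; simp)
    (by
      rw [update_of_ne (by omega), update_of_ne (by omega)]
      exact hw _ (by omega))
    (by
      rw [hu (m + 1) (by omega)]
      simp)
  rw [swap_swap_comp, swap_val, swap_val'] at hup
  have hst : update (update (update (update w m true) (m + 2) true) m false) (m + 1) true
      = update (update w (m + 1) true) (m + 2) true := by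
    funext x
    simp only [update_apply]
    by_cases h1 : x = m + 1
    · simp [h1]
    · by_cases h2 : x = m
      · rw [h2]
        simp [hw m le_rfl]
      · simp [h1, h2]
  rw [hst] at hup
  rw [amp_101 m t (t ∘ Equiv.swap m (m + 1)) g w u hw hu
    (fun i hi => by rw [swap_val_ne _ _ _ (by omega) (by omega)])
    (by rw [swap_val_ne _ _ _ (by omega) (by omega), swap_val', ha, hc]; exact hca'),
    amp_101 m t t g w u hw hu (fun _ _ => rfl) (by rw [hb, hc]; exact hcb')] at hup
  rw [swap_val, swap_val', swap_val_ne _ _ _ (by omega) (by omega), ha, hb, hc,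
    PP_symm m t g w u b a hu] at hup
  have e : (b - a) * amp (m + 3) t g (update (update w (m + 1) true) (m + 2) true) u
      = (PP m t g w u b c - PP m t g w u a b) / (c - a)
        - (PP m t g w u a c - PP m t g w u a b) / (c - b) := by
    rw [hup]; ring
  have e2 : amp (m + 3) t g (update (update w (m + 1) true) (m + 2) true) u
      = ((PP m t g w u b c - PP m t g w u a b) / (c - a)
        - (PP m t g w u a c - PP m t g w u a b) / (c - b)) / (b - a) := by
    rw [eq_div_iff hba', ← e]; ring
  rw [e2]
  have hx : a - b = -(b - a) := by ring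
  have hy : a - c = -(c - a) := by ring
  have hz : b - c = -(c - b) := by ring
  rw [hx, hy, hz]
  field_simp
  ring

/-- amplitude from `u + {m+1}` to `w + {m, m+1, m+2}` -/
lemma amp_010 (m : ℕ) (t t' : ℕ → K) (g : K[X]) (w u : ℕ → Bool)
    (hw : ∀ i, m ≤ i → w i = false) (hu : ∀ i, m ≤ i → u i = false)
    (h3 : ∀ i < m, t' i = t i) (hne : t' (m + 1) - t' (m + 2) ≠ 0) :
    amp (m + 3) t' g (update (update (update w m true) (m + 1) true) (m + 2) true)
        (update u (m + 1) true)
      = (PP m t (g.comp (X + C (t' (m + 1)))) w u (t' m) (t' (m + 2))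
          - PP m t (g.comp (X + C (t' (m + 2)))) w u (t' m) (t' (m + 1)))
        / (t' (m + 1) - t' (m + 2)) := by
  rw [eq_div_iff hne]
  have hdn := amp_down (m + 3) (m + 1) (by omega) t' g
    (update (update (update w m true) (m + 1) true) (m + 2) true) (update u (m + 2) true)
    (by simp) (by simp)
    (by
      rw [update_of_ne (by omega)]
      exact hu _ (by omega))
  have hst : update (update (update u (m + 2) true) (m + 1 + 1) false) (m + 1) true
      = update u (m + 1) true := by
    funext x
    simp only [update_apply]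
    by_cases h1 : x = m + 1
    · simp [h1]
    · by_cases h2 : x = m + 2
      · rw [h2]
        simp [hu (m + 2) (by omega)]
      · simp [h1, h2]
  rw [hst] at hdn
  have hin : ∀ t'' : ℕ → K, amp (m + 3) t'' g
      (update (update (update w m true) (m + 1) true) (m + 2) true) (update u (m + 2) true)
      = amp (m + 2) t'' (g.comp (X + C (t'' (m + 2))))
        (update (update w m true) (m + 1) true) u := by
    intro t''
    apply amp_inert (m + 2)
    · rw [update_of_ne (by omega), update_of_ne (by omega)]
      exact hw _ (by omega)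
    · exact hu _ (by omega)
  rw [hin, hin,
    PP_eq m t (t' ∘ Equiv.swap (m + 1) (m + 1 + 1)) _ w u (t' m) (t' (m + 2)) hw
      (by rw [swap_val_ne _ _ _ (by omega) (by omega)]) (by rw [swap_val])
      (fun i hi => by rw [swap_val_ne _ _ _ (by omega) (by omega)]; exact h3 i hi) (m + 2) le_rfl,
    PP_eq m t t' _ w u (t' m) (t' (m + 1)) hw rfl rfl h3 (m + 2) le_rfl] at hdn
  have hsv : (t' ∘ Equiv.swap (m + 1) (m + 1 + 1)) (m + 2) = t' (m + 1) := swap_val' t' (m + 1)
  rw [hsv] at hdn
  rw [← hdn, show m + 1 + 1 = m + 2 from rfl]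
  ring

/-- **Step (B)**: the site `m` is full in the initial and in the final state. -/
theorem stepB (m : ℕ) (t : ℕ → K) (g : K[X]) (w u : ℕ → Bool) (a b c : K)
    (hw : ∀ i, m ≤ i → w i = false) (hu : ∀ i, m ≤ i → u i = false)
    (ha : t m = a) (hb : t (m + 1) = b) (hc : t (m + 2) = c)
    (hab : a ≠ b) (hac : a ≠ c) (hbc : b ≠ c) :
    amp (m + 3) t g (update (update (update w m true) (m + 1) true) (m + 2) true)
        (update u m true)
      = PP m t (g.comp (X + C c)) w u a b / ((c - a) * (c - b))
        + PP m t (g.comp (X + C b)) w u a c / ((b - a) * (b - c))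
        + PP m t (g.comp (X + C a)) w u b c / ((a - b) * (a - c)) := by
  have hba' : b - a ≠ 0 := sub_ne_zero.2 hab.symm
  have hab' : a - b ≠ 0 := sub_ne_zero.2 hab
  have hca' : c - a ≠ 0 := sub_ne_zero.2 hac.symm
  have hac' : a - c ≠ 0 := sub_ne_zero.2 hac
  have hcb' : c - b ≠ 0 := sub_ne_zero.2 hbc.symm
  have hbc' : b - c ≠ 0 := sub_ne_zero.2 hbc
  have hdn := amp_down (m + 3) m (by omega) t g
    (update (update (update w m true) (m + 1) true) (m + 2) true) (update u (m + 1) true)
    (by
      rw [update_of_ne (by omega : m + 1 ≠ m + 2), update_self]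
      simp)
    (by simp)
    (by
      rw [update_of_ne (by omega)]
      exact hu _ le_rfl)
  have hst : update (update (update u (m + 1) true) (m + 1) false) m true = update u m true := by
    funext x
    simp only [update_apply]
    by_cases h1 : x = m
    · simp [h1]
    · by_cases h2 : x = m + 1
      · rw [h2]
        simp [hu (m + 1) (by omega)]
      · simp [h1, h2]
  rw [hst, amp_010 m t t g w u hw hu (fun _ _ => rfl) (by rw [hb, hc]; exact hbc'),
    amp_010 m t (t ∘ Equiv.swap m (m + 1)) g w u hw hu
      (fun i hi => by rw [swap_val_ne _ _ _ (by omega) (by omega)])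
      (by
        rw [swap_val', swap_val_ne t m (m + 2) (by omega) (by omega), ha, hc]
        exact hac')] at hdn
  rw [swap_val, swap_val', swap_val_ne _ _ _ (by omega) (by omega), ha, hb, hc,
    PP_symm m t _ w u b a hu] at hdn
  have e : (a - b) * amp (m + 3) t g
      (update (update (update w m true) (m + 1) true) (m + 2) true) (update u m true)
      = (PP m t (g.comp (X + C a)) w u b c - PP m t (g.comp (X + C c)) w u a b) / (a - c)
        - (PP m t (g.comp (X + C b)) w u a c - PP m t (g.comp (X + C c)) w u a b) / (b - c) := by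
    rw [← hdn]; ring
  have e2 : amp (m + 3) t g
      (update (update (update w m true) (m + 1) true) (m + 2) true) (update u m true)
      = ((PP m t (g.comp (X + C a)) w u b c - PP m t (g.comp (X + C c)) w u a b) / (a - c)
        - (PP m t (g.comp (X + C b)) w u a c - PP m t (g.comp (X + C c)) w u a b) / (b - c))
        / (a - b) := by
    rw [eq_div_iff hab', ← e]; ring
  rw [e2]
  have hx : b - a = -(a - b) := by ring
  have hy : c - a = -(a - c) := by ring
  have hz : c - b = -(b - c) := by ring
  rw [hx, hy, hz]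
  field_simp
  ring

end Pool.Agent.H32.TW
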