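import Pool.Agent.H53.RQ.Defs

/-!
# Triangular operators commuting with `D` are polynomials in `D` (MP_1e629d_co, part D)

`Nice K M`: on the states inside `range K` the operator `M` is a matrix, and its entries only go
from lower to higher states (`ht u = ∑_{i ∈ u} (i+1)`).  Letters are nice, sums and products of nice
operators are nice.  `uniq`: a nice operator which commutes with `Dop K y pos` and has the diagonal
`g (∑_{J u} y)` has the same matrix entries as `g (Dop K y pos)`.
-/

set_option autoImplicit false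

namespace Pool.Agent.H32.TW

open Polynomial Finset Pool.H53.RQ

/-- height of a state -/
def ht (u : Finset ℕ) : ℕ := ∑ i ∈ u, (i + 1)

/-- the labels of the diagonal entry of the state `u` -/
def Jset (K : ℕ) (pos : ℕ → Bool) (u : Finset ℕ) : Finset ℕ :=
  (range K).filter fun i => i ∈ u ↔ pos i = true

/-- triangular matrices on the states inside `range K` -/
def Nice (K : ℕ) (M : Op) : Prop :=
  (∀ v, v ⊆ range K → ∀ f : Finset ℕ → ℝ, M f v = ∑ u ∈ (range K).powerset, me M v u * f u) ∧
    ∀ u v, u ⊆ range K → v ⊆ range K → me M v u ≠ 0 → u = v ∨ ht u < ht v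

lemma me_add (M N : Op) (v u : Finset ℕ) : me (M + N) v u = me M v u + me N v u := by
  simp [me]

lemma me_sub (M N : Op) (v u : Finset ℕ) : me (M - N) v u = me M v u - me N v u := by
  simp [me]

lemma me_smul (c : ℝ) (M : Op) (v u : Finset ℕ) : me (c • M) v u = c * me M v u := by
  simp [me]

lemma me_zero (v u : Finset ℕ) : me (0 : Op) v u = 0 := by
  simp [me]

lemma me_one (v u : Finset ℕ) : me (1 : Op) v u = if v = u then 1 else 0 := by
  simp [me, Pi.single_apply]

lemma me_mul {K : ℕ} {M N : Op} (hM : Nice K M) (v u : Finset ℕ) (hv : v ⊆ range K) :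
    me (M * N) v u = ∑ w ∈ (range K).powerset, me M v w * me N w u := by
  unfold me
  rw [Module.End.mul_apply]
  exact hM.1 v hv _

lemma nice_zero (K : ℕ) : Nice K 0 := by
  refine ⟨fun v _ f => ?_, fun u v _ _ h => absurd (me_zero v u) h⟩
  simp [me_zero]

lemma nice_one (K : ℕ) : Nice K 1 := by
  refine ⟨fun v hv f => ?_, fun u v _ _ h => ?_⟩
  · rw [sum_eq_single v]
    · simp [me_one]
    · intro u _ hu
      rw [me_one, if_neg (Ne.symm hu), zero_mul]
    · intro h
      exact absurd (mem_powerset.2 hv) h
  · rw [me_one] at h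
    left
    by_contra hne
    exact h (if_neg (Ne.symm hne))

lemma nice_add {K : ℕ} {M N : Op} (hM : Nice K M) (hN : Nice K N) : Nice K (M + N) := by
  refine ⟨fun v hv f => ?_, fun u v hu hv h => ?_⟩
  · rw [LinearMap.add_apply, Pi.add_apply, hM.1 v hv f, hN.1 v hv f, ← sum_add_distrib]
    exact sum_congr rfl fun u _ => by rw [me_add]; ring
  · rw [me_add] at h
    by_cases h1 : me M v u = 0
    · rw [h1, zero_add] at h
      exact hN.2 u v hu hv h
    · exact hM.2 u v hu hv h1

lemma nice_smul {K : ℕ} {M : Op} (c : ℝ) (hM : Nice K M) : Nice K (c • M) := by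
  refine ⟨fun v hv f => ?_, fun u v hu hv h => ?_⟩
  · rw [LinearMap.smul_apply, Pi.smul_apply, hM.1 v hv f, smul_eq_mul, mul_sum]
    exact sum_congr rfl fun u _ => by rw [me_smul]; ring
  · rw [me_smul] at h
    exact hM.2 u v hu hv (right_ne_zero_of_mul h)

lemma nice_sub {K : ℕ} {M N : Op} (hM : Nice K M) (hN : Nice K N) : Nice K (M - N) := by
  have e : M - N = M + (-1 : ℝ) • N := by module
  rw [e]
  exact nice_add hM (nice_smul _ hN)

lemma nice_mul {K : ℕ} {M N : Op} (hM : Nice K M) (hN : Nice K N) : Nice K (M * N) := by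
  refine ⟨fun v hv f => ?_, fun u v hu hv h => ?_⟩
  · rw [Module.End.mul_apply, hM.1 v hv (N f)]
    have e : ∀ w ∈ (range K).powerset, me M v w * N f w
        = ∑ u ∈ (range K).powerset, me M v w * me N w u * f u := by
      intro w hw
      rw [hN.1 w (mem_powerset.1 hw) f, mul_sum]
      exact sum_congr rfl fun u _ => by ring
    rw [sum_congr rfl e, sum_comm]
    refine sum_congr rfl fun u _ => ?_
    rw [me_mul hM v u hv, sum_mul]
  · rw [me_mul hM v u hv] at h
    obtain ⟨w, hw, hne⟩ := exists_ne_zero_of_sum_ne_zero h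
    rw [mem_powerset] at hw
    rcases hM.2 w v hw hv (left_ne_zero_of_mul hne) with h1 | h1 <;>
      rcases hN.2 u w hu hw (right_ne_zero_of_mul hne) with h2 | h2
    · left; rw [h2, h1]
    · right; rw [← h1]; exact h2
    · right; rw [h2]; exact h1
    · right; exact h2.trans h1

lemma nice_sum {K : ℕ} {ι : Type*} (s : Finset ι) (M : ι → Op) (h : ∀ i ∈ s, Nice K (M i)) :
    Nice K (∑ i ∈ s, M i) := by
  classical
  induction s using Finset.induction_on with
  | empty => simpa using nice_zero K
  | insert a s ha ih =>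
    rw [sum_insert ha]
    exact nice_add (h a (mem_insert_self a s)) (ih fun i hi => h i (mem_insert_of_mem hi))

lemma nice_pow {K : ℕ} {M : Op} (hM : Nice K M) (n : ℕ) : Nice K (M ^ n) := by
  induction n with
  | zero => simpa using nice_one K
  | succ n ih =>
    rw [pow_succ]
    exact nice_mul ih hM

lemma nice_aeval {K : ℕ} {M : Op} (hM : Nice K M) (g : ℝ[X]) : Nice K (aeval M g) := by
  induction g using Polynomial.induction_on' with
  | add p q hp hq =>
    rw [map_add]
    exact nice_add hp hq
  | monomial n a =>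
    rw [aeval_monomial, ← Algebra.smul_def]
    exact nice_smul a (nice_pow hM n)

lemma me_mul_self {K : ℕ} {M N : Op} (hM : Nice K M) (hN : Nice K N) (u : Finset ℕ)
    (hu : u ⊆ range K) : me (M * N) u u = me M u u * me N u u := by
  rw [me_mul hM u u hu, sum_eq_single u]
  · intro w hw hne
    rw [mem_powerset] at hw
    by_contra hc
    rcases hM.2 w u hw hu (left_ne_zero_of_mul hc) with h1 | h1
    · exact hne h1
    · rcases hN.2 u w hu hw (right_ne_zero_of_mul hc) with h2 | h2
      · exact hne h2.symm
      · omega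
  · intro h
    exact absurd (mem_powerset.2 hu) h

lemma me_pow_self {K : ℕ} {M : Op} (hM : Nice K M) (n : ℕ) (u : Finset ℕ) (hu : u ⊆ range K) :
    me (M ^ n) u u = (me M u u) ^ n := by
  induction n with
  | zero => rw [pow_zero, pow_zero, me_one, if_pos rfl]
  | succ n ih => rw [pow_succ, me_mul_self (nice_pow hM n) hM u hu, ih, pow_succ]

lemma me_aeval_self {K : ℕ} {M : Op} (hM : Nice K M) (g : ℝ[X]) (u : Finset ℕ)
    (hu : u ⊆ range K) : me (aeval M g) u u = g.eval (me M u u) := by
  induction g using Polynomial.induction_on' with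
  | add p q hp hq => rw [map_add, me_add, hp, hq, eval_add]
  | monomial n a =>
    rw [aeval_monomial, ← Algebra.smul_def, me_smul, me_pow_self hM n u hu, eval_monomial]

/-! ### the letters -/

lemma me_let0 (v u : Finset ℕ) :
    me let0 v u = if 0 ∈ v ∧ v.erase 0 = u then 1 else 0 := by
  unfold me let0
  simp only [LinearMap.coe_mk, AddHom.coe_mk, Pi.single_apply]
  by_cases h1 : 0 ∈ v <;> by_cases h2 : v.erase 0 = u <;> simp [h1, h2]

lemma me_letS (y : ℕ → ℝ) (pos : ℕ → Bool) (j : ℕ) (v u : Finset ℕ) :
    me (letS y pos j) v u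
      = (if (j + 1 ∈ v ∧ j ∉ v) ∧ insert j (v.erase (j + 1)) = u then 1 else 0)
        + if (j ∈ v ↔ pos j = true) ∧ v = u then y j else 0 := by
  unfold me letS
  simp only [LinearMap.coe_mk, AddHom.coe_mk, Pi.single_apply]
  congr 1
  · by_cases h1 : j + 1 ∈ v ∧ j ∉ v <;> by_cases h2 : insert j (v.erase (j + 1)) = u <;>
      simp [h1, h2]
  · by_cases h1 : (j ∈ v ↔ pos j = true) <;> by_cases h2 : v = u <;> simp [h1, h2]

lemma ht_erase_zero {v : Finset ℕ} (h : 0 ∈ v) : ht v = ht (v.erase 0) + 1 := by
  unfold ht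
  rw [← add_sum_erase v _ h]
  ring

lemma ht_hop {v : Finset ℕ} {j : ℕ} (h1 : j + 1 ∈ v) (h2 : j ∉ v) :
    ht v = ht (insert j (v.erase (j + 1))) + 1 := by
  have h3 : j ∉ v.erase (j + 1) := fun h => h2 (mem_of_mem_erase h)
  unfold ht
  rw [sum_insert h3, ← add_sum_erase v _ h1]
  ring

lemma nice_let0 (K : ℕ) : Nice K let0 := by
  refine ⟨fun v hv f => ?_, fun u v _ _ h => ?_⟩
  · have e : let0 f v = if 0 ∈ v then f (v.erase 0) else 0 := rfl
    rw [e]
    by_cases h0 : 0 ∈ v
    · rw [if_pos h0, sum_eq_single (v.erase 0)]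
      · rw [me_let0, if_pos ⟨h0, rfl⟩, one_mul]
      · intro u _ hu
        rw [me_let0, if_neg (fun h => hu h.2.symm), zero_mul]
      · intro h
        exact absurd (mem_powerset.2 ((erase_subset _ _).trans hv)) h
    · rw [if_neg h0, sum_eq_zero]
      intro u _
      rw [me_let0, if_neg (fun h => h0 h.1), zero_mul]
  · rw [me_let0] at h
    right
    by_cases hc : 0 ∈ v ∧ v.erase 0 = u
    · rw [← hc.2]
      have := ht_erase_zero hc.1
      omega
    · exact absurd (if_neg hc) h

lemma nice_letS (K : ℕ) (y : ℕ → ℝ) (pos : ℕ → Bool) (j : ℕ) : Nice K (letS y pos j) := by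
  refine ⟨fun v hv f => ?_, fun u v _ _ h => ?_⟩
  · have e : letS y pos j f v = (if j + 1 ∈ v ∧ j ∉ v then f (insert j (v.erase (j + 1))) else 0)
        + (if (j ∈ v ↔ pos j = true) then y j * f v else 0) := rfl
    rw [e]
    have e2 : ∀ u ∈ (range K).powerset, me (letS y pos j) v u * f u
        = (if (j + 1 ∈ v ∧ j ∉ v) ∧ insert j (v.erase (j + 1)) = u then 1 else 0) * f u
          + (if (j ∈ v ↔ pos j = true) ∧ v = u then y j else 0) * f u := by
      intro u _
      rw [me_letS]; ring
    rw [sum_congr rfl e2, sum_add_distrib]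
    congr 1
    · by_cases h0 : j + 1 ∈ v ∧ j ∉ v
      · rw [if_pos h0, sum_eq_single (insert j (v.erase (j + 1)))]
        · rw [if_pos ⟨h0, rfl⟩, one_mul]
        · intro u _ hu
          rw [if_neg (fun h => hu h.2.symm), zero_mul]
        · intro h
          exfalso
          apply h
          rw [mem_powerset]
          intro i hi
          rcases mem_insert.1 hi with hi | hi
          · have := mem_range.1 (hv h0.1)
            rw [mem_range]; omega
          · exact hv (mem_of_mem_erase hi)
      · rw [if_neg h0, sum_eq_zero]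
        intro u _
        rw [if_neg (fun h => h0 h.1), zero_mul]
    · by_cases h0 : (j ∈ v ↔ pos j = true)
      · rw [if_pos h0, sum_eq_single v]
        · rw [if_pos ⟨h0, rfl⟩]
        · intro u _ hu
          rw [if_neg (fun h => hu h.2.symm), zero_mul]
        · intro h
          exact absurd (mem_powerset.2 hv) h
      · rw [if_neg h0, sum_eq_zero]
        intro u _
        rw [if_neg (fun h => h0 h.1), zero_mul]
  · rw [me_letS] at h
    by_cases hc : (j + 1 ∈ v ∧ j ∉ v) ∧ insert j (v.erase (j + 1)) = u
    · right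
      rw [← hc.2]
      have := ht_hop hc.1.1 hc.1.2
      omega
    · left
      rw [if_neg hc, zero_add] at h
      by_contra hne
      exact h (if_neg (fun h' => hne h'.2.symm))

lemma nice_lett (K : ℕ) (y : ℕ → ℝ) (pos : ℕ → Bool) (j : ℕ) : Nice K (lett y pos j) := by
  rcases j with _ | j
  · exact nice_let0 K
  · exact nice_letS K y pos j

lemma nice_Dop (K : ℕ) (y : ℕ → ℝ) (pos : ℕ → Bool) : Nice K (Dop K y pos) :=
  nice_sum _ _ fun j _ => nice_lett K y pos j

lemma me_lett_self (y : ℕ → ℝ) (pos : ℕ → Bool) (j : ℕ) (u : Finset ℕ) :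
    me (lett y pos (j + 1)) u u = if (j ∈ u ↔ pos j = true) then y j else 0 := by
  change me (letS y pos j) u u = _
  rw [me_letS]
  have h : ¬ ((j + 1 ∈ u ∧ j ∉ u) ∧ insert j (u.erase (j + 1)) = u) := by
    rintro ⟨⟨_, h2⟩, h3⟩
    apply h2
    rw [← h3]
    exact mem_insert_self _ _
  rw [if_neg h, zero_add]
  by_cases h0 : (j ∈ u ↔ pos j = true) <;> simp [h0]

lemma me_lett_zero_self (y : ℕ → ℝ) (pos : ℕ → Bool) (u : Finset ℕ) :
    me (lett y pos 0) u u = 0 := by
  change me let0 u u = 0
  rw [me_let0, if_neg]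
  rintro ⟨h1, h2⟩
  rw [← h2] at h1
  exact notMem_erase _ _ h1

lemma me_sum {ι : Type*} (s : Finset ι) (M : ι → Op) (v u : Finset ℕ) :
    me (∑ i ∈ s, M i) v u = ∑ i ∈ s, me (M i) v u := by
  unfold me
  rw [LinearMap.sum_apply, Finset.sum_apply]

lemma me_Dop_self (K : ℕ) (y : ℕ → ℝ) (pos : ℕ → Bool) (u : Finset ℕ) :
    me (Dop K y pos) u u = ∑ i ∈ Jset K pos u, y i := by
  unfold Dop Jset
  rw [me_sum, sum_range_succ', me_lett_zero_self, add_zero, sum_filter]
  exact sum_congr rfl fun j _ => me_lett_self y pos j u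

lemma Jset_inj {K : ℕ} {pos : ℕ → Bool} {u v : Finset ℕ} (hu : u ⊆ range K) (hv : v ⊆ range K)
    (h : Jset K pos u = Jset K pos v) : u = v := by
  ext i
  by_cases hi : i < K
  · have h1 : i ∈ Jset K pos u ↔ i ∈ Jset K pos v := by rw [h]
    simp only [Jset, mem_filter, mem_range, hi, true_and] at h1
    tauto
  · constructor
    · intro h1
      exact absurd (mem_range.1 (hu h1)) hi
    · intro h1
      exact absurd (mem_range.1 (hv h1)) hi

/-- **Uniqueness**: a nice operator commuting with `Dop` with the right diagonal is `g(Dop)`. -/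
theorem uniq (K : ℕ) (y : ℕ → ℝ) (pos : ℕ → Bool)
    (hinj : ∀ I ⊆ range K, ∀ J ⊆ range K, ∑ i ∈ I, y i = ∑ i ∈ J, y i → I = J)
    (M : Op) (hM : Nice K M)
    (hcomm : ∀ u v, u ⊆ range K → v ⊆ range K →
      me (M * Dop K y pos) v u = me (Dop K y pos * M) v u)
    (g : ℝ[X]) (hdiag : ∀ u, u ⊆ range K → me M u u = g.eval (∑ i ∈ Jset K pos u, y i))
    (u v : Finset ℕ) (hu : u ⊆ range K) (hv : v ⊆ range K) :
    me M v u = me (aeval (Dop K y pos) g) v u := by
  set D := Dop K y pos with hD
  have hDn : Nice K D := nice_Dop K y pos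
  have hG : Nice K (aeval D g) := nice_aeval hDn g
  set E := M - aeval D g with hE
  have hEn : Nice K E := nice_sub hM hG
  have hEd : ∀ w, w ⊆ range K → me E w w = 0 := by
    intro w hw
    rw [hE, me_sub, hdiag w hw, me_aeval_self hDn g w hw, hD, me_Dop_self, sub_self]
  have hEc : ∀ u v, u ⊆ range K → v ⊆ range K → me (E * D) v u = me (D * E) v u := by
    intro u v hu hv
    have hc : aeval D g * D = D * aeval D g := by
      have := (Polynomial.commute_X g).eq
      have h2 := congrArg (aeval D) this
      simpa using h2.symm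
    rw [hE, sub_mul, mul_sub, me_sub, me_sub, hcomm u v hu hv, hc]
  have key : ∀ n : ℕ, ∀ u v, u ⊆ range K → v ⊆ range K → ht v - ht u = n → me E v u = 0 := by
    intro n
    induction n using Nat.strong_induction_on with
    | _ n ih =>
      intro u v hu hv hn
      by_cases huv : u = v
      · rw [huv]; exact hEd v hv
      by_contra hne
      have hlt : ht u < ht v := by
        rcases hEn.2 u v hu hv hne with h | h
        · exact absurd h huv
        · exact h
      have h1 := hEc u v hu hv
      rw [me_mul hEn v u hv, me_mul hDn v u hv] at h1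
      have e1 : ∑ w ∈ (range K).powerset, me E v w * me D w u = me E v u * me D u u := by
        rw [sum_eq_single u]
        · intro w hw hwu
          rw [mem_powerset] at hw
          by_contra hc
          rcases hDn.2 u w hu hw (right_ne_zero_of_mul hc) with h2 | h2
          · exact hwu h2.symm
          · apply left_ne_zero_of_mul hc
            rcases hEn.2 w v hw hv (left_ne_zero_of_mul hc) with h3 | h3
            · rw [h3]; exact hEd v hv
            · exact ih (ht v - ht w) (by omega) w v hw hv rfl
        · intro h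
          exact absurd (mem_powerset.2 hu) h
      have e2 : ∑ w ∈ (range K).powerset, me D v w * me E w u = me D v v * me E v u := by
        rw [sum_eq_single v]
        · intro w hw hwv
          rw [mem_powerset] at hw
          by_contra hc
          rcases hDn.2 w v hw hv (left_ne_zero_of_mul hc) with h2 | h2
          · exact hwv h2
          · apply right_ne_zero_of_mul hc
            rcases hEn.2 u w hu hw (right_ne_zero_of_mul hc) with h3 | h3
            · rw [h3]; exact hEd w hw
            · exact ih (ht w - ht u) (by omega) u w hu hw rfl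
        · intro h
          exact absurd (mem_powerset.2 hv) h
      rw [e1, e2, hD, me_Dop_self, me_Dop_self] at h1
      have h4 : (∑ i ∈ Jset K pos u, y i) - ∑ i ∈ Jset K pos v, y i = 0 := by
        have : me E v u * ((∑ i ∈ Jset K pos u, y i) - ∑ i ∈ Jset K pos v, y i) = 0 := by
          linarith
        rcases mul_eq_zero.1 this with h5 | h5
        · exact absurd h5 hne
        · exact h5
      exact huv (Jset_inj hu hv (hinj _ (filter_subset _ _) _ (filter_subset _ _)
        (sub_eq_zero.1 h4)))
  have := key _ u v hu hv rfl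
  rw [hE, me_sub] at this
  linarith

end Pool.Agent.H32.TW
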